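import Pool.Agent.Run7.h876.MM.Loc

/-!
# The corrected local mean, and bounds for the powers of the Euler factor
-/

set_option autoImplicit false

namespace Run7.h876.MM

open Finset

/-- The exponent `n (n - 1) / 2`. -/
def kap (n : ℤ) : ℕ := (n * (n - 1) / 2).toNat

theorem kap_cast (n : ℤ) : ((kap n : ℕ) : ℂ) = (n : ℂ) * (n - 1) / 2 := by
  have h1 : (2 : ℤ) ∣ n * (n - 1) := even_iff_two_dvd.1 (Int.even_mul_pred_self n)
  have h2 : 0 ≤ n * (n - 1) := by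
    rcases le_or_gt n 0 with h | h
    · nlinarith
    · nlinarith
  obtain ⟨m, hm⟩ := h1
  have h3 : 0 ≤ m := by omega
  unfold kap
  rw [hm, Int.mul_ediv_cancel_left _ (by norm_num : (2 : ℤ) ≠ 0)]
  have h4 : ((m.toNat : ℕ) : ℂ) = (m : ℂ) := by
    have : ((m.toNat : ℕ) : ℤ) = m := Int.toNat_of_nonneg h3
    exact_mod_cast congrArg (Int.cast : ℤ → ℂ) this
  rw [h4]
  have h5 := congrArg (Int.cast : ℤ → ℂ) hm
  push_cast at h5
  rw [h5]
  ring

theorem norm_avg_le {α : Type*} (S : Finset α) (f : α → ℂ) (B : ℝ) (hB0 : 0 ≤ B) (hB : ∀ c ∈ S, ‖f c‖ ≤ B) :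
    ‖avg S f‖ ≤ B := by
  unfold avg
  rcases S.eq_empty_or_nonempty with h | h
  · rw [h]; simpa using hB0
  · have h0 : (0 : ℝ) < S.card := by exact_mod_cast h.card_pos
    rw [norm_div, Complex.norm_natCast, div_le_iff₀ h0]
    refine (norm_sum_le _ _).trans ((Finset.sum_le_sum hB).trans ?_)
    rw [Finset.sum_const, nsmul_eq_mul, mul_comm]

theorem avg_sub_one_le {α : Type*} (S : Finset α) (hS : S.Nonempty) (f : α → ℂ) (B : ℝ)
    (hB : ∀ c ∈ S, ‖f c - 1‖ ≤ B) : ‖avg S f - 1‖ ≤ B := by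
  have h0 : (0 : ℝ) < S.card := by exact_mod_cast hS.card_pos
  have h1 : avg S f - 1 = avg S (fun c => f c - 1) := by
    unfold avg
    rw [Finset.sum_sub_distrib, Finset.sum_const, nsmul_eq_mul, mul_one]
    have : (S.card : ℂ) ≠ 0 := by exact_mod_cast hS.card_pos.ne'
    field_simp
  rw [h1]
  obtain ⟨c, hc⟩ := hS
  exact norm_avg_le S _ B ((norm_nonneg _).trans (hB c hc)) hB

/-- The local factor to the power `n`: `1` for bad reduction. -/
noncomputable def gl (k : Type) [Field k] [Fintype k] [DecidableEq k] (n : ℤ) (X : ℂ) (c : k × k) : ℂ :=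
  open Classical in if ringChar k ≠ 2 ∧ Gd c then (EP (T c) (Fintype.card k) X) ^ (-n) else 1

theorem gl_le {k : Type} [Field k] [Fintype k] [DecidableEq k] {y₀ : ℝ} (hy0 : y₀ < 1) (n : ℤ) (X : ℂ)
    (hX : Real.sqrt (Fintype.card k) * ‖X‖ ≤ y₀) (c : k × k) : ‖gl k n X c‖ ≤ Bd y₀ n := by
  unfold gl
  split_ifs with h
  · have h1 := EP_zpow_le (q := (Fintype.card k : ℝ)) (T := (T c : ℝ)) (by positivity) (T_le h.1 c) hy0 X hX n
    simpa using h1
  · rw [norm_one]; exact one_le_Bd n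

theorem pow_sub_one_le (m : ℕ) (z : ℂ) (B : ℝ) (hB : 1 ≤ B) (hz : ‖z‖ ≤ B) :
    ‖z ^ m - 1‖ ≤ m * B ^ m * ‖z - 1‖ := by
  induction m with
  | zero => simp
  | succ m ih =>
    have e : z ^ (m + 1) - 1 = (z ^ m - 1) * z + (z - 1) := by ring
    rw [e]
    refine (norm_add_le _ _).trans ?_
    rw [norm_mul]
    have h1 : ‖z ^ m - 1‖ * ‖z‖ ≤ m * B ^ m * ‖z - 1‖ * B := mul_le_mul ih hz (norm_nonneg _) (by positivity)
    have h2 : ‖z - 1‖ ≤ B ^ (m + 1) * ‖z - 1‖ := by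
      have := one_le_pow₀ (n := m + 1) hB
      nlinarith [norm_nonneg (z - 1)]
    calc _ ≤ m * B ^ m * ‖z - 1‖ * B + B ^ (m + 1) * ‖z - 1‖ := add_le_add h1 h2
      _ = _ := by push_cast; ring

/-- The constant in `|factor^n - 1| ≤ C y`. -/
noncomputable def Cc (y₀ : ℝ) (n : ℤ) : ℝ :=
  3 * (n.natAbs * (4 + ((1 - y₀) ^ 2)⁻¹) ^ (n.natAbs + 1))

theorem gl_sub_one {k : Type} [Field k] [Fintype k] [DecidableEq k] {y₀ : ℝ} (hy0 : y₀ < 1) (n : ℤ) (X : ℂ)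
    (hX : Real.sqrt (Fintype.card k) * ‖X‖ ≤ y₀) (c : k × k) :
    ‖gl k n X c - 1‖ ≤ Cc y₀ n * (Real.sqrt (Fintype.card k) * ‖X‖) := by
  set B : ℝ := 4 + ((1 - y₀) ^ 2)⁻¹ with hB
  have h5 : 0 ≤ ((1 - y₀) ^ 2)⁻¹ := by positivity
  have hB1 : 1 ≤ B := by linarith
  unfold gl
  split_ifs with h
  · set q : ℝ := (Fintype.card k : ℝ) with hq
    have hq0 : 0 ≤ q := by positivity
    set y : ℝ := Real.sqrt q * ‖X‖ with hy
    have hyn : 0 ≤ y := by positivity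
    set z : ℂ := EP (T c) q X with hz
    obtain ⟨a1, a2⟩ := EP_bounds (T := (T c : ℝ)) hq0 (T_le h.1 c) hy0 X hX
    have hzz : EP ((T c : ℝ) : ℂ) q X = z := by rw [hz]; norm_cast
    rw [hzz] at a1 a2
    have h3 : 0 < (1 - y₀) ^ 2 := by
      have : 0 < 1 - y₀ := by linarith
      positivity
    have hz0 : 0 < ‖z‖ := by linarith
    have hzne : z ≠ 0 := norm_pos_iff.1 hz0
    have hz1 : ‖z - 1‖ ≤ 3 * y := by
      have e : z - 1 = (T c : ℂ) * X + (q : ℂ) * X ^ 2 := by rw [hz]; unfold EP; ring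
      rw [e]
      refine (norm_add_le _ _).trans ?_
      rw [norm_mul, norm_mul, norm_pow, Complex.norm_real, Real.norm_eq_abs, abs_of_nonneg hq0]
      have b1 : ‖(T c : ℂ)‖ ≤ 2 * Real.sqrt q := by
        have := T_le h.1 c
        rwa [← Real.norm_eq_abs, ← Complex.norm_real, Complex.ofReal_intCast] at this
      have b2 : q * ‖X‖ ^ 2 = y ^ 2 := by rw [hy, mul_pow, Real.sq_sqrt hq0]
      have b3 : ‖(T c : ℂ)‖ * ‖X‖ ≤ 2 * y := by
        calc _ ≤ (2 * Real.sqrt q) * ‖X‖ := mul_le_mul_of_nonneg_right b1 (norm_nonneg _)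
          _ = 2 * y := by rw [hy]; ring
      rw [b2]
      nlinarith
    have hzi : ‖z⁻¹ - 1‖ ≤ B * (3 * y) := by
      have e : z⁻¹ - 1 = -(z - 1) * z⁻¹ := by field_simp; ring
      rw [e, norm_mul, norm_neg, norm_inv, mul_comm]
      have : ‖z‖⁻¹ ≤ B := by
        have := inv_anti₀ h3 a1
        linarith
      exact mul_le_mul this hz1 (norm_nonneg _) (by linarith)
    have hpow : ∀ m : ℕ, B ^ m * B = B ^ (m + 1) := fun m => (pow_succ B m).symm
    unfold Cc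
    rw [← hB]
    rcases Int.natAbs_eq n with h' | h'
    · have e : z ^ (-n) = (z⁻¹) ^ n.natAbs := by
        conv_lhs => rw [h', zpow_neg, zpow_natCast]
        rw [inv_pow]
      rw [e]
      have hzB : ‖z⁻¹‖ ≤ B := by
        rw [norm_inv]
        have := inv_anti₀ h3 a1
        linarith
      refine (pow_sub_one_le n.natAbs z⁻¹ B hB1 hzB).trans ?_
      calc (n.natAbs : ℝ) * B ^ n.natAbs * ‖z⁻¹ - 1‖ ≤ n.natAbs * B ^ n.natAbs * (B * (3 * y)) := by gcongr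
        _ = _ := by rw [pow_succ]; ring
    · have e : z ^ (-n) = z ^ n.natAbs := by
        conv_lhs => rw [h', neg_neg, zpow_natCast]
      rw [e]
      refine (pow_sub_one_le n.natAbs z B hB1 (by linarith)).trans ?_
      calc (n.natAbs : ℝ) * B ^ n.natAbs * ‖z - 1‖ ≤ n.natAbs * B ^ n.natAbs * (3 * y) := by gcongr
        _ ≤ n.natAbs * B ^ n.natAbs * B * (3 * y) := by
            have : (0 : ℝ) ≤ n.natAbs * B ^ n.natAbs * (3 * y) := by positivity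
            nlinarith
        _ = _ := by rw [pow_succ]; ring
  · rw [sub_self, norm_zero]
    unfold Cc
    positivity

/-- **The corrected local mean is close to one.** -/
theorem local_corr (n : ℤ) : ∃ C : ℝ, 0 ≤ C ∧ ∀ (k : Type) [Field k] [Fintype k] [DecidableEq k],
    ringChar k ≠ 2 → ∀ X : ℂ, Real.sqrt (Fintype.card k) * ‖X‖ ≤ 1 / 6 →
    ‖avg Finset.univ (gl k n X) * (1 - (Fintype.card k : ℂ) * X ^ 2) ^ kap n - 1‖ ≤
      C * (‖X‖ ^ 2 + (Real.sqrt (Fintype.card k) * ‖X‖) ^ 4) := by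
  obtain ⟨C₁, hC₁, h₁⟩ := local_mean n
  obtain ⟨C₂, hC₂, h₂⟩ := one_sub_pow (kap n)
  set κ : ℝ := (kap n : ℝ) with hκ
  refine ⟨C₁ * 2 ^ kap n + C₂ * (1 + κ) + κ ^ 2, by positivity, fun k _ _ _ hk X hX => ?_⟩
  set q : ℝ := (Fintype.card k : ℝ) with hq
  have hq0 : 0 < q := by rw [hq]; exact_mod_cast Fintype.card_pos
  set y : ℝ := Real.sqrt q * ‖X‖ with hy
  have hy0 : 0 ≤ y := by positivity
  have hy2 : y ^ 2 = q * ‖X‖ ^ 2 := by rw [hy, mul_pow, Real.sq_sqrt hq0.le]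
  set z : ℂ := (Fintype.card k : ℂ) * X ^ 2 with hz
  have hzn : ‖z‖ = y ^ 2 := by
    rw [hz, norm_mul, norm_pow, Complex.norm_natCast, hy2]
  have hz1 : ‖z‖ ≤ 1 := by rw [hzn]; nlinarith
  have e0 : avg Finset.univ (gl k n X) =
      avg Finset.univ (fun c : k × k => if Gd c then (EP (T c) (Fintype.card k) X) ^ (-n) else 1) := by
    congr 1
    funext c
    unfold gl
    by_cases h : Gd c
    · rw [if_pos ⟨hk, h⟩, if_pos h]
    · rw [if_neg (fun h' => h h'.2), if_neg h]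
  rw [e0]
  have h3 := h₁ k hk X hX
  have h4 := h₂ z hz1
  rw [← kap_cast] at h3
  set m := avg Finset.univ (fun c : k × k => if Gd c then (EP (T c) (Fintype.card k) X) ^ (-n) else 1)
  have e : m * (1 - z) ^ kap n - 1 = (m - (1 + (kap n : ℂ) * z)) * (1 - z) ^ kap n +
      (1 + (kap n : ℂ) * z) * ((1 - z) ^ kap n - (1 - (kap n : ℂ) * z)) - (kap n : ℂ) ^ 2 * z ^ 2 := by ring
  rw [e]
  have n1 : ‖(1 - z) ^ kap n‖ ≤ 2 ^ kap n := by
    rw [norm_pow]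
    refine pow_le_pow_left₀ (norm_nonneg _) ?_ _
    refine (norm_sub_le _ _).trans ?_
    rw [norm_one]; linarith
  have n2 : ‖1 + (kap n : ℂ) * z‖ ≤ 1 + κ := by
    refine (norm_add_le _ _).trans ?_
    rw [norm_one, norm_mul, Complex.norm_natCast]
    have : κ * ‖z‖ ≤ κ * 1 := by gcongr
    linarith
  have n3 : ‖(kap n : ℂ) ^ 2 * z ^ 2‖ = κ ^ 2 * y ^ 4 := by
    rw [norm_mul, norm_pow, norm_pow, Complex.norm_natCast, hzn]; ring
  have hE : 0 ≤ ‖X‖ ^ 2 + y ^ 4 := by positivity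
  have hy4 : y ^ 4 ≤ ‖X‖ ^ 2 + y ^ 4 := by
    have : 0 ≤ ‖X‖ ^ 2 := by positivity
    linarith
  have m1 : ‖(m - (1 + (kap n : ℂ) * z)) * (1 - z) ^ kap n‖ ≤ C₁ * (‖X‖ ^ 2 + y ^ 4) * 2 ^ kap n := by
    rw [norm_mul]
    exact mul_le_mul h3 n1 (norm_nonneg _) (by positivity)
  have m2 : ‖(1 + (kap n : ℂ) * z) * ((1 - z) ^ kap n - (1 - (kap n : ℂ) * z))‖ ≤ (1 + κ) * (C₂ * (‖X‖ ^ 2 + y ^ 4)) := by
    rw [norm_mul]
    refine mul_le_mul n2 (h4.trans ?_) (norm_nonneg _) (by positivity)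
    have e5 : ‖z‖ ^ 2 = y ^ 4 := by rw [hzn]; ring
    rw [e5]
    gcongr
  have m3 : ‖(kap n : ℂ) ^ 2 * z ^ 2‖ ≤ κ ^ 2 * (‖X‖ ^ 2 + y ^ 4) := by
    rw [n3]; gcongr
  refine (norm_sub_le _ _).trans ((add_le_add ((norm_add_le _ _).trans (add_le_add m1 m2)) m3).trans ?_)
  apply le_of_eq
  ring

end Run7.h876.MM
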