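import Pool.Agent.Run7.h876.MM.Defs
import Pool.Agent.Run7.h876.MM.Loc2
import Pool.Agent.H921R2.TatePole.Dedekind

/-!
# The Euler factors in terms of the residues, and the mean over the residues modulo finitely many places
-/

set_option autoImplicit false
set_option linter.unusedSectionVars false

namespace Run7.h876.MM

open NumberField IsDedekindDomain Finset

section
variable {K : Type} [Field K] [NumberField K]

/-- the residue field -/
abbrev kv (v : HeightOneSpectrum (𝓞 K)) : Type := 𝓞 K ⧸ v.asIdeal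

noncomputable instance instFieldKv (v : HeightOneSpectrum (𝓞 K)) : Field (kv v) :=
  haveI : v.asIdeal.IsMaximal := v.isMaximal
  Ideal.Quotient.field v.asIdeal

noncomputable instance instFintypeKv (v : HeightOneSpectrum (𝓞 K)) : Fintype (kv v) :=
  haveI : Finite (𝓞 K ⧸ v.asIdeal) := Ideal.finiteQuotientOfFreeOfNeBot _ v.ne_bot
  Fintype.ofFinite _

noncomputable instance instDecKv (v : HeightOneSpectrum (𝓞 K)) : DecidableEq (kv v) :=
  Classical.decEq _

theorem card_kv (v : HeightOneSpectrum (𝓞 K)) : Fintype.card (kv v) = nv v := by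
  unfold nv
  rw [Ideal.absNorm_apply, Submodule.cardQuot_apply, Nat.card_eq_fintype_card]

theorem nv_eq (v : HeightOneSpectrum (𝓞 K)) : nv v = Pool.Agent.H921R2.TatePole.nm v := rfl

theorem two_le_nv (v : HeightOneSpectrum (𝓞 K)) : 2 ≤ nv v := Pool.Agent.H921R2.TatePole.two_le_nm v

theorem nv_pos (v : HeightOneSpectrum (𝓞 K)) : (0 : ℝ) < nv v := by
  have := two_le_nv v
  exact_mod_cast (by omega : 0 < nv v)

noncomputable instance instDecHOS : DecidableEq (HeightOneSpectrum (𝓞 K)) := Classical.decEq _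

/-- reduction of a pair -/
def rd (v : HeightOneSpectrum (𝓞 K)) (c : 𝓞 K × 𝓞 K) : kv v × kv v :=
  (Ideal.Quotient.mk v.asIdeal c.1, Ideal.Quotient.mk v.asIdeal c.2)

/-- `Nv^(-s)` -/
noncomputable def xv (v : HeightOneSpectrum (𝓞 K)) (s : ℂ) : ℂ := (nv v : ℂ) ^ (-s)

theorem norm_xv (v : HeightOneSpectrum (𝓞 K)) (s : ℂ) : ‖xv v s‖ = (nv v : ℝ) ^ (-s.re) := by
  unfold xv
  have h : 0 < nv v := by have := two_le_nv v; omega
  rw [Complex.norm_natCast_cpow_of_pos h, Complex.neg_re]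

theorem sqrt_mul_xv (v : HeightOneSpectrum (𝓞 K)) (s : ℂ) :
    Real.sqrt (Fintype.card (kv v)) * ‖xv v s‖ = (nv v : ℝ) ^ (1 / 2 - s.re) := by
  rw [card_kv, norm_xv, Real.sqrt_eq_rpow, ← Real.rpow_add (nv_pos v)]
  rfl

theorem xv_sq (v : HeightOneSpectrum (𝓞 K)) (s : ℂ) :
    (nv v : ℂ) ^ (1 - 2 * s) = (nv v : ℂ) * (xv v s) ^ 2 := by
  have h : (nv v : ℂ) ≠ 0 := by exact_mod_cast (nv_pos v).ne'
  unfold xv
  have e : (1 : ℂ) - 2 * s = 1 + ((-s) + (-s)) := by ring
  rw [e, Complex.cpow_add _ _ h, Complex.cpow_one, Complex.cpow_add _ _ h, sq]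

theorem ring_char_two {v : HeightOneSpectrum (𝓞 K)} (h : ringChar (kv v) = 2) : (2 : kv v) = 0 := by
  have := ringChar.Nat.cast_ringChar (R := kv v)
  rw [h] at this
  exact_mod_cast this

theorem two_ne {k : Type} [Field k] (h : ringChar k ≠ 2) : (2 : k) ≠ 0 := by
  intro h2
  exact h (Nat.dvd_prime Nat.prime_two |>.1 ((ringChar.spec k 2).1 (by exact_mod_cast h2)) |>.resolve_left
      (CharP.ringChar_ne_one))

theorem disc_curve (A B : 𝓞 K) : (curve A B).Δ = -16 * (4 * A ^ 3 + 27 * B ^ 2) := by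
  unfold curve
  simp only [WeierstrassCurve.Δ, WeierstrassCurve.b₂, WeierstrassCurve.b₄, WeierstrassCurve.b₆, WeierstrassCurve.b₈]
  ring

/-- The Euler factor in terms of the residues of the coefficients. -/
theorem factor_eq (A B : 𝓞 K) (v : HeightOneSpectrum (𝓞 K)) (s : ℂ) (n : ℤ) :
    factor (curve A B) v s ^ n = gl (kv v) n (xv v s) (rd v (A, B)) := by
  classical
  unfold factor gl
  have hmem : (curve A B).Δ ∈ v.asIdeal ↔ -16 * (4 * (rd v (A, B)).1 ^ 3 + 27 * (rd v (A, B)).2 ^ 2) = (0 : kv v) := by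
    rw [← Ideal.Quotient.eq_zero_iff_mem, disc_curve]
    unfold rd
    simp only [map_mul, map_neg, map_add, map_pow, map_ofNat]
  by_cases h : (curve A B).Δ ∈ v.asIdeal
  · rw [if_pos h, one_zpow, if_neg]
    rintro ⟨h1, h2⟩
    have h3 := hmem.1 h
    have h16 : (-16 : kv v) ≠ 0 := by
      have : (-16 : kv v) = -(2 ^ 4) := by norm_num
      rw [this, neg_ne_zero]
      exact pow_ne_zero _ (two_ne h1)
    exact h2 ((mul_eq_zero.1 h3).resolve_left h16)
  · rw [if_neg h]
    have h3 := fun h' => h (hmem.2 h')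
    have hc : ringChar (kv v) ≠ 2 := by
      intro hc
      apply h3
      have h2 := ring_char_two hc
      have : (-16 : kv v) = -(2 ^ 4) := by norm_num
      rw [this, h2]
      ring
    have hG : Gd (rd v (A, B)) := by
      intro h0
      apply h3
      rw [h0, mul_zero]
    rw [if_pos ⟨hc, hG⟩]
    have ht : (trace (curve A B) v : ℂ) = -(T (rd v (A, B)) : ℂ) := by
      have h4 : trace (curve A B) v = -T (rd v (A, B)) := by
        unfold trace
        have h5 := card_pts hc (rd v (A, B))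
        have h6 : Nat.card {P : (𝓞 K ⧸ v.asIdeal) × (𝓞 K ⧸ v.asIdeal) //
            ((curve A B).map (Ideal.Quotient.mk v.asIdeal)).toAffine.Equation P.1 P.2} =
            #{P : kv v × kv v | P.2 ^ 2 = P.1 ^ 3 + (rd v (A, B)).1 * P.1 + (rd v (A, B)).2} := by
          rw [← Fintype.card_subtype, Nat.card_eq_fintype_card]
          refine Fintype.card_congr (Equiv.subtypeEquivRight fun P => ?_)
          rw [WeierstrassCurve.Affine.equation_iff]
          simp [curve, rd]
        rw [h6, h5, card_kv]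
        ring
      rw [h4]; push_cast; rfl
    rw [ht, xv_sq]
    unfold EP
    rw [zpow_neg, inv_zpow, card_kv]
    congr 2
    unfold xv
    push_cast
    ring

/-! ### several places -/

variable {ι : Type} [Fintype ι] [DecidableEq ι] (ω : Module.Basis ι ℤ (𝓞 K))

/-- The coefficients `(A, B)` of the curve with the given coordinates. -/
noncomputable def cf (c : ι ⊕ ι → ℤ) : 𝓞 K × 𝓞 K := (∑ i, c (Sum.inl i) • ω i, ∑ i, c (Sum.inr i) • ω i)

variable (S : Finset (HeightOneSpectrum (𝓞 K)))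

/-- the residues at the places of `S` -/
abbrev TS : Type := ∀ v : S, kv v.1 × kv v.1

/-- the reduction -/
noncomputable def PhiS : (ι ⊕ ι → ℤ) →+ TS S where
  toFun c := fun v => rd v.1 (cf ω c)
  map_zero' := by
    funext v
    simp [rd, cf]
  map_add' c d := by
    funext v
    simp only [rd, cf, Pi.add_apply, add_smul, Finset.sum_add_distrib, map_add, Prod.mk_add_mk]

theorem exists_crt (x : S → 𝓞 K) : ∃ y : 𝓞 K, ∀ v : S, Ideal.Quotient.mk v.1.asIdeal y =
    Ideal.Quotient.mk v.1.asIdeal (x v) := by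
  obtain ⟨y, hy⟩ := IsDedekindDomain.exists_forall_sub_mem_ideal (s := S)
    (fun v : HeightOneSpectrum (𝓞 K) => v.asIdeal) (fun _ => 1) (fun v _ => v.prime)
    (fun v _ w _ hvw h => hvw (HeightOneSpectrum.ext h)) x
  refine ⟨y, fun v => ?_⟩
  have := hy v.1 v.2
  rw [pow_one] at this
  exact Ideal.Quotient.eq.2 this

theorem PhiS_surj : Function.Surjective (PhiS ω S) := by
  intro t
  have h1 : ∀ v : S, ∃ a : 𝓞 K, Ideal.Quotient.mk v.1.asIdeal a = (t v).1 := fun v =>
    Ideal.Quotient.mk_surjective _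
  have h2 : ∀ v : S, ∃ a : 𝓞 K, Ideal.Quotient.mk v.1.asIdeal a = (t v).2 := fun v =>
    Ideal.Quotient.mk_surjective _
  choose a ha using h1
  choose b hb using h2
  obtain ⟨A, hA⟩ := exists_crt S a
  obtain ⟨B, hB⟩ := exists_crt S b
  refine ⟨Sum.elim (fun i => ω.repr A i) (fun i => ω.repr B i), ?_⟩
  funext v
  show rd v.1 (cf ω _) = t v
  have e1 : cf ω (Sum.elim (fun i => ω.repr A i) (fun i => ω.repr B i)) = (A, B) := by
    unfold cf
    simp only [Sum.elim_inl, Sum.elim_inr]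
    rw [ω.sum_repr, ω.sum_repr]
  rw [e1]
  unfold rd
  rw [hA v, hB v, ha, hb]

theorem N_smul (N : ℕ) (hN : ∀ v ∈ S, ((N : ℕ) : 𝓞 K) ∈ v.asIdeal) (t : TS S) : N • t = 0 := by
  funext v
  have h1 : ((N : ℕ) : kv v.1) = 0 := by
    have := Ideal.Quotient.eq_zero_iff_mem.2 (hN v.1 v.2)
    rwa [map_natCast] at this
  have h2 : ∀ x : kv v.1, N • x = 0 := fun x => by rw [nsmul_eq_mul, h1, zero_mul]
  exact Prod.ext (h2 _) (h2 _)

/-- The mean of a product over the residues at several places. -/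
theorem avg_prod (g : ∀ v : HeightOneSpectrum (𝓞 K), kv v × kv v → ℂ) :
    avg (Finset.univ : Finset (TS S)) (fun t => ∏ v : S, g v.1 (t v)) = ∏ v ∈ S, avg Finset.univ (g v) := by
  rw [← Finset.prod_coe_sort S (fun v => avg Finset.univ (g v))]
  unfold avg
  rw [Finset.prod_div_distrib]
  congr 1
  · rw [Finset.prod_univ_sum, Fintype.piFinset_univ]
  · rw [Finset.card_univ, Fintype.card_pi]
    push_cast
    rfl

/-- **Independence of the places.** -/
theorem box_prod (N M : ℕ) [NeZero N] (hN : ∀ v ∈ S, ((N : ℕ) : 𝓞 K) ∈ v.asIdeal) (hNM : N ≤ 2 * M + 1)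
    (H : ι ⊕ ι → ℕ) (hH : ∀ i, M ≤ H i) (g : ∀ v : HeightOneSpectrum (𝓞 K), kv v × kv v → ℂ)
    (b : HeightOneSpectrum (𝓞 K) → ℝ) (hg : ∀ v ∈ S, ∀ t, ‖g v t‖ ≤ b v) :
    ‖avg (bx H) (fun c => ∏ v ∈ S, g v (rd v (cf ω c))) - ∏ v ∈ S, avg Finset.univ (g v)‖ ≤
      2 ^ Fintype.card (ι ⊕ ι) * ((N : ℝ) / (2 * M + 1)) * ∏ v ∈ S, b v := by
  classical
  have h1 := avg_bx (PhiS ω S) (PhiS_surj ω S) N M (N_smul S N hN) hNM H hH
    (fun t => ∏ v : S, g v.1 (t v)) (∏ v ∈ S, b v) (fun t => by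
      rw [norm_prod, ← Finset.prod_coe_sort S b]
      exact Finset.prod_le_prod (fun _ _ => norm_nonneg _) fun v _ => hg v.1 v.2 _)
  rw [avg_prod] at h1
  have e : (fun c : ι ⊕ ι → ℤ => ∏ v : S, g v.1 ((PhiS ω S c) v)) = fun c => ∏ v ∈ S, g v (rd v (cf ω c)) := by
    funext c
    rw [← Finset.prod_coe_sort S (fun v => g v (rd v (cf ω c)))]
    rfl
  rw [e] at h1
  exact h1

end

end Run7.h876.MM
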