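import Pool.Agent.Run7.h876.MM.Core

/-!
# The mean of the power of the partial Euler product past the centre
-/

set_option autoImplicit false
set_option linter.unusedSectionVars false

namespace Run7.h876.MM

open NumberField IsDedekindDomain Finset Filter Topology

section
variable {K : Type} [Field K] [NumberField K]
variable {ι : Type} [Fintype ι] [DecidableEq ι] (ω : Module.Basis ι ℤ (𝓞 K))

variable (K) in
/-- the places of norm at most `Z` -/
noncomputable def SZ (Z : ℕ) : Finset (HeightOneSpectrum (𝓞 K)) := (finite_nv_le Z).toFinset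

theorem mem_SZ {Z : ℕ} {v : HeightOneSpectrum (𝓞 K)} : v ∈ SZ K Z ↔ nv v ≤ Z := by
  unfold SZ
  rw [Set.Finite.mem_toFinset]
  rfl

theorem partialProduct_eq (Z : ℕ) (W : WeierstrassCurve (𝓞 K)) (s : ℂ) :
    partialProduct Z W s = ∏ v ∈ SZ K Z, factor W v s := by
  classical
  unfold partialProduct
  rw [tprod_eq_prod (s := SZ K Z) (fun v hv => if_neg fun h => hv (mem_SZ.2 h))]
  exact Finset.prod_congr rfl fun v hv => if_pos (mem_SZ.1 hv)

theorem partialZetaInv_eq (Z : ℕ) (s : ℂ) :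
    partialZetaInv K Z (2 * s - 1) = ∏ v ∈ SZ K Z, (1 - (nv v : ℂ) ^ (1 - 2 * s)) := by
  classical
  unfold partialZetaInv
  rw [tprod_eq_prod (s := SZ K Z) (fun v hv => if_neg fun h => hv (mem_SZ.2 h))]
  refine Finset.prod_congr rfl fun v hv => ?_
  rw [if_pos (mem_SZ.1 hv), show -(2 * s - 1) = 1 - 2 * s by ring]

variable (K) in
theorem card_SZ {θ : ℝ} (hθ : 0 < θ) : ∃ T : ℝ, 0 ≤ T ∧ ∀ Z : ℕ, 1 ≤ Z → ((SZ K Z).card : ℝ) ≤ T * (Z : ℝ) ^ (1 + θ) := by
  have hs := Pool.Agent.H921R2.TatePole.nm_summable (K := K) (x := 1 + θ) (by linarith)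
  refine ⟨∑' v : HeightOneSpectrum (𝓞 K), (nv v : ℝ) ^ (-(1 + θ)), tsum_nonneg fun v => by
    have := (nv_pos v).le; positivity, fun Z hZ => ?_⟩
  have hZ0 : (0 : ℝ) < Z := by exact_mod_cast hZ
  have h1 : ∑ v ∈ SZ K Z, (nv v : ℝ) ^ (-(1 + θ)) ≤ ∑' v : HeightOneSpectrum (𝓞 K), (nv v : ℝ) ^ (-(1 + θ)) :=
    hs.sum_le_tsum _ fun v _ => by have := (nv_pos v).le; positivity
  have h2 : ((SZ K Z).card : ℝ) * (Z : ℝ) ^ (-(1 + θ)) ≤ ∑ v ∈ SZ K Z, (nv v : ℝ) ^ (-(1 + θ)) := by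
    rw [← nsmul_eq_mul]
    refine Finset.card_nsmul_le_sum _ _ _ fun v hv => ?_
    exact Real.rpow_le_rpow_of_nonpos (nv_pos v) (by exact_mod_cast mem_SZ.1 hv) (by linarith)
  have h3 := h2.trans h1
  have h4 := mul_le_mul_of_nonneg_right h3 (by positivity : 0 ≤ (Z : ℝ) ^ (1 + θ))
  rwa [mul_assoc, ← Real.rpow_add hZ0, neg_add_cancel, Real.rpow_zero, mul_one] at h4

theorem growth {θ T D C₀ : ℝ} (hθ : 0 < θ) (hD : 1 ≤ D) :
    ∀ᶠ x : ℝ in atTop, T * x ^ (1 + θ / 2) * Real.log (x * D) + C₀ ≤ x ^ (1 + θ) := by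
  have h1 : (fun x : ℝ => Real.log (x * D)) =o[atTop] fun x => x ^ (θ / 2) := by
    have h2 : (fun x : ℝ => Real.log x) =o[atTop] fun x => x ^ (θ / 2) := isLittleO_log_rpow_atTop (by linarith)
    have h3 : (fun _ : ℝ => Real.log D) =o[atTop] fun x : ℝ => x ^ (θ / 2) :=
      Asymptotics.isLittleO_const_left.2 (Or.inr (tendsto_norm_atTop_atTop.comp (tendsto_rpow_atTop (by linarith))))
    refine (h2.add h3).congr' ?_ Filter.EventuallyEq.rfl
    filter_upwards [Filter.eventually_gt_atTop 0] with x hx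
    rw [Real.log_mul hx.ne' (by linarith)]
  have h4 := (h1.def (c := 1 / (2 * (|T| + 1))) (by positivity))
  have h5 : ∀ᶠ x : ℝ in atTop, 2 * C₀ ≤ x ^ (1 + θ) :=
    (tendsto_rpow_atTop (by linarith : 0 < 1 + θ)).eventually_ge_atTop _
  filter_upwards [h4, h5, Filter.eventually_ge_atTop 1] with x hx1 hx2 hx3
  have hx0 : 0 < x := by linarith
  rw [Real.norm_of_nonneg (by positivity : 0 ≤ x ^ (θ / 2))] at hx1
  have hlog : 0 ≤ Real.log (x * D) := Real.log_nonneg (by nlinarith)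
  rw [Real.norm_of_nonneg hlog] at hx1
  have h6 : T * x ^ (1 + θ / 2) * Real.log (x * D) ≤ x ^ (1 + θ) / 2 := by
    have hT : T ≤ |T| + 1 := by linarith [le_abs_self T]
    have hxp : 0 ≤ x ^ (1 + θ / 2) := by positivity
    calc T * x ^ (1 + θ / 2) * Real.log (x * D) ≤ (|T| + 1) * x ^ (1 + θ / 2) * Real.log (x * D) := by gcongr
      _ ≤ (|T| + 1) * x ^ (1 + θ / 2) * (1 / (2 * (|T| + 1)) * x ^ (θ / 2)) := by gcongr
      _ = (x ^ (1 + θ / 2) * x ^ (θ / 2)) / 2 := by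
        have : |T| + 1 ≠ 0 := by positivity
        field_simp
      _ = x ^ (1 + θ) / 2 := by
        rw [← Real.rpow_add hx0]
        congr 2
        ring
  linarith

/-- **The mean of the power of the partial Euler product past the centre.** -/
theorem part2 (n : ℤ) {σ : ℝ} (hσ : 3 / 4 < σ) {θ : ℝ} (hθ : 0 < θ) {ε : ℝ} (hε : 0 < ε) :
    ∃ Z₀ : ℕ, ∀ Z : ℕ, Z₀ ≤ Z → ∀ X Y : ℕ, Real.exp ((Z : ℝ) ^ (1 + θ)) ≤ X → Real.exp ((Z : ℝ) ^ (1 + θ)) ≤ Y →
      ∀ s : ℂ, σ ≤ s.re →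
      ‖mean ω X Y (fun W => partialProduct Z W s ^ n * partialZetaInv K Z (2 * s - 1) ^ kap n) - GG K n s‖ ≤ ε := by
  classical
  have hσ2 : 1 / 2 < σ := by linarith
  obtain ⟨u, hu, hub⟩ := exists_u (K := K) hσ n
  obtain ⟨S₀, hS₀⟩ := tail_small hu (ε := ε / 2) (by linarith)
  set D : ℝ := Bd (2 ^ (1 / 2 - σ)) n * 2 ^ kap n with hD
  have hD1 : 1 ≤ D := by
    have h1 := one_le_Bd (y₀ := 2 ^ (1 / 2 - σ)) n
    have h2 : (1 : ℝ) ≤ 2 ^ kap n := one_le_pow₀ (by norm_num)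
    rw [hD]
    nlinarith
  set c : ℝ := 2 ^ Fintype.card (ι ⊕ ι) with hc
  have hc0 : 0 < c := by positivity
  set C₀ : ℝ := max 0 (Real.log ((12 + c) / (ε / 2))) with hC₀
  have hC₀0 : 0 ≤ C₀ := le_max_left _ _
  have hC₀1 : (12 + c) * Real.exp (-C₀) ≤ ε / 2 := by
    have h1 : Real.log ((12 + c) / (ε / 2)) ≤ C₀ := le_max_right _ _
    have h2 : (12 + c) / (ε / 2) ≤ Real.exp C₀ := by
      rw [← Real.log_le_iff_le_exp (by positivity)]
      exact h1
    rw [div_le_iff₀ (by linarith)] at h2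
    rw [Real.exp_neg, ← div_eq_mul_inv, div_le_iff₀ (Real.exp_pos _)]
    linarith
  obtain ⟨T, hT0, hT⟩ := card_SZ K (θ := θ / 2) (by linarith)
  have hgr := (growth (θ := θ) (T := T) (D := D) (C₀ := C₀) hθ hD1)
  obtain ⟨x₀, hx₀⟩ := Filter.eventually_atTop.1 hgr
  refine ⟨max (⌈x₀⌉₊) (max 1 (S₀.sup nv)), fun Z hZ X Y hX hY s hs => ?_⟩
  have hZ1 : 1 ≤ Z := ((le_max_left 1 (S₀.sup nv)).trans (le_max_right _ _)).trans hZ
  have hZ2 : x₀ ≤ (Z : ℝ) := (Nat.le_ceil x₀).trans (by exact_mod_cast (le_max_left _ _).trans hZ)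
  have hZ3 : S₀ ⊆ SZ K Z := by
    intro v hv
    rw [mem_SZ]
    exact (Finset.le_sup (f := nv) hv).trans (((le_max_right 1 (S₀.sup nv)).trans (le_max_right _ _)).trans hZ)
  have hZr : (1 : ℝ) ≤ Z := by exact_mod_cast hZ1
  have hgrow := hx₀ Z hZ2
  set S := SZ K Z with hS
  set M : ℕ := min X Y with hM
  have hM1 : Real.exp ((Z : ℝ) ^ (1 + θ)) ≤ M := by
    rw [hM]
    push_cast
    exact le_min hX hY
  have hM0 : (1 : ℝ) ≤ M := (Real.one_le_exp (by positivity)).trans hM1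
  have hM0' : 1 ≤ M := by exact_mod_cast hM0
  set N : ℕ := ∏ v ∈ S, nv v with hN
  have hN1 : (1 : ℝ) ≤ N := by
    have : 0 < N := Finset.prod_pos fun v _ => by have := two_le_nv v; omega
    exact_mod_cast this
  have hNle : (N : ℝ) ≤ (Z : ℝ) ^ S.card := by
    rw [hN]
    push_cast
    rw [← Finset.prod_const]
    exact Finset.prod_le_prod (fun _ _ => by positivity) fun v hv => by exact_mod_cast mem_SZ.1 hv
  -- the main bound
  have hmain : (N : ℝ) * D ^ S.card ≤ Real.exp (-C₀) * M := by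
    have hZD : 1 ≤ (Z : ℝ) * D := by nlinarith
    have hZD0 : 0 < (Z : ℝ) * D := by linarith
    calc (N : ℝ) * D ^ S.card ≤ (Z : ℝ) ^ S.card * D ^ S.card := by gcongr
      _ = ((Z : ℝ) * D) ^ S.card := (mul_pow _ _ _).symm
      _ = Real.exp (S.card * Real.log (Z * D)) := by
        rw [← Real.rpow_natCast, Real.rpow_def_of_pos hZD0, mul_comm]
      _ ≤ Real.exp ((Z : ℝ) ^ (1 + θ) - C₀) := by
        refine Real.exp_le_exp.2 ?_
        have h1 : (S.card : ℝ) * Real.log (Z * D) ≤ T * (Z : ℝ) ^ (1 + θ / 2) * Real.log (Z * D) :=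
          mul_le_mul_of_nonneg_right (hT Z hZ1) (Real.log_nonneg hZD)
        linarith
      _ = Real.exp (-C₀) * Real.exp ((Z : ℝ) ^ (1 + θ)) := by rw [← Real.exp_add]; congr 1; ring
      _ ≤ Real.exp (-C₀) * M := by gcongr
  have hexp1 : Real.exp (-C₀) ≤ 1 := Real.exp_le_one_iff.2 (by linarith)
  have hDc : 1 ≤ D ^ S.card := one_le_pow₀ hD1
  have hNM : N ≤ 2 * M + 1 := by
    have : (N : ℝ) ≤ M := by
      calc (N : ℝ) ≤ N * D ^ S.card := by nlinarith
        _ ≤ Real.exp (-C₀) * M := hmain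
        _ ≤ M := by nlinarith
    have h2 : N ≤ M := by exact_mod_cast this
    omega
  have hgb : ∀ v ∈ S, ∀ t, ‖gl (kv v) n (xv v s) t * (1 - (nv v : ℂ) ^ (1 - 2 * s)) ^ kap n‖ ≤ D := by
    intro v _ t
    rw [norm_mul, norm_pow]
    obtain ⟨h1, h2⟩ := nv_rpow_le hσ2 v hs
    exact mul_le_mul (gl_le (y0_lt hσ2) n (xv v s) (by rw [sqrt_mul_xv]; exact h1.trans h2) t)
      (pow_le_pow_left₀ (norm_nonneg _) (zfac_le hσ2 v hs) _) (by positivity) (zero_le_one.trans (one_le_Bd n))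
  have hf : ∀ A C : 𝓞 K, partialProduct Z (curve A C) s ^ n * partialZetaInv K Z (2 * s - 1) ^ kap n =
      ∏ v ∈ S, (gl (kv v) n (xv v s) (rd v (A, C)) * (1 - (nv v : ℂ) ^ (1 - 2 * s)) ^ kap n) := by
    intro A C
    rw [partialProduct_eq, partialZetaInv_eq, Finset.prod_mul_distrib, ← Finset.prod_zpow, ← Finset.prod_pow]
    congr 1
    exact Finset.prod_congr rfl fun v _ => factor_eq A C v s n
  have hcore := core ω S X Y M hM0' (min_le_left _ _) (min_le_right _ _) hNM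
    (fun W => partialProduct Z W s ^ n * partialZetaInv K Z (2 * s - 1) ^ kap n) (D ^ S.card) 0
    (fun A C => by
      show ‖partialProduct Z (curve A C) s ^ n * partialZetaInv K Z (2 * s - 1) ^ kap n‖ ≤ _
      rw [hf, norm_prod, ← Finset.prod_const]
      exact Finset.prod_le_prod (fun _ _ => norm_nonneg _) fun v hv => hgb v hv _)
    (fun v t => gl (kv v) n (xv v s) t * (1 - (nv v : ℂ) ^ (1 - 2 * s)) ^ kap n)
    (fun A C => by
      show ‖partialProduct Z (curve A C) s ^ n * partialZetaInv K Z (2 * s - 1) ^ kap n - _‖ ≤ _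
      rw [hf, sub_self, norm_zero])
    (fun _ => D) hgb
  have havg : ∀ v : HeightOneSpectrum (𝓞 K), avg Finset.univ
      (fun t => gl (kv v) n (xv v s) t * (1 - (nv v : ℂ) ^ (1 - 2 * s)) ^ kap n) = hv n v s := by
    intro v
    unfold hv mv avg
    rw [← Finset.sum_mul]
    ring
  rw [Finset.prod_congr rfl fun v _ => havg v, Finset.prod_const] at hcore
  have htail : ‖GG K n s - ∏ v ∈ S, hv n v s‖ ≤ ε / 2 :=
    (tail_bound hu (fun v => hub v s hs) S).trans (hS₀ S hZ3).le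
  have e : mean ω X Y (fun W => partialProduct Z W s ^ n * partialZetaInv K Z (2 * s - 1) ^ kap n) - GG K n s =
      (mean ω X Y (fun W => partialProduct Z W s ^ n * partialZetaInv K Z (2 * s - 1) ^ kap n) -
        ∏ v ∈ S, hv n v s) - (GG K n s - ∏ v ∈ S, hv n v s) := by ring
  rw [e]
  refine (norm_sub_le _ _).trans ?_
  have hMp : (0 : ℝ) < 2 * M + 1 := by positivity
  have h1 : 12 * D ^ S.card / (2 * M + 1) ≤ 12 * Real.exp (-C₀) := by
    rw [div_le_iff₀ hMp]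
    have h3 : D ^ S.card ≤ Real.exp (-C₀) * M := by nlinarith
    have h4 := Real.exp_pos (-C₀)
    nlinarith
  have h2 : c * ((N : ℝ) / (2 * M + 1)) * D ^ S.card ≤ c * Real.exp (-C₀) := by
    have e : c * ((N : ℝ) / (2 * M + 1)) * D ^ S.card = c * ((N : ℝ) * D ^ S.card / (2 * M + 1)) := by ring
    rw [e]
    refine mul_le_mul_of_nonneg_left ?_ hc0.le
    rw [div_le_iff₀ hMp]
    have h4 := Real.exp_pos (-C₀)
    nlinarith
  linarith [hcore]

end

end Run7.h876.MM
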