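import Pool.Agent.Y722.HS.Box

/-!
# Equidistribution of the integer vectors of a box in a finite quotient, with complex values
-/

set_option autoImplicit false

namespace Run7.h876.MM

open Finset
open Pool.Agent.Y722.HS (IH cnt_one_mod)

/-- The integer vectors `c` with `|c i| ≤ H i`. -/
noncomputable def bx {κ : Type*} [Fintype κ] [DecidableEq κ] (H : κ → ℕ) : Finset (κ → ℤ) :=
  Fintype.piFinset fun i => IH (H i)

theorem card_IH (H : ℕ) : (IH H).card = 2 * H + 1 := by
  unfold IH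
  rw [Int.card_Icc]
  omega

section
variable {κ : Type*} [Fintype κ] [DecidableEq κ]

theorem card_bx (H : κ → ℕ) : (bx H).card = ∏ i, (2 * H i + 1) := by
  unfold bx
  rw [Fintype.card_piFinset]
  exact Finset.prod_congr rfl fun i _ => card_IH _

theorem card_bx_pos (H : κ → ℕ) : 0 < (bx H).card := by
  rw [card_bx]
  exact Finset.prod_pos fun i _ => by omega

/-- The mean over a finite set. -/
noncomputable def avg {α : Type*} (S : Finset α) (f : α → ℂ) : ℂ := (∑ c ∈ S, f c) / (S.card : ℂ)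

omit [Fintype κ] in
theorem prod_close (s : Finset κ) (x : κ → ℝ) (L τ : ℝ) (hL : 0 ≤ L) (hτ : 0 ≤ τ)
    (hx : ∀ i ∈ s, 0 ≤ x i) (h : ∀ i ∈ s, |x i - L| ≤ τ * L) :
    0 ≤ ∏ i ∈ s, x i ∧ ∏ i ∈ s, x i ≤ ((1 + τ) * L) ^ s.card ∧
      |∏ i ∈ s, x i - L ^ s.card| ≤ ((1 + τ) ^ s.card - 1) * L ^ s.card := by
  induction s using Finset.induction_on with
  | empty => simp
  | insert a s ha ih =>
    obtain ⟨h1, h2, h3⟩ := ih (fun i hi => hx i (Finset.mem_insert_of_mem hi))
      (fun i hi => h i (Finset.mem_insert_of_mem hi))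
    have hxa := hx a (Finset.mem_insert_self a s)
    have ha1 := h a (Finset.mem_insert_self a s)
    have hxa2 : x a ≤ (1 + τ) * L := by have := (abs_le.mp ha1).2; linarith
    rw [Finset.prod_insert ha, Finset.card_insert_of_notMem ha]
    refine ⟨mul_nonneg hxa h1, ?_, ?_⟩
    · rw [pow_succ, mul_comm]
      gcongr
    · have e : x a * ∏ i ∈ s, x i - L ^ (s.card + 1) =
          (x a - L) * ∏ i ∈ s, x i + L * (∏ i ∈ s, x i - L ^ s.card) := by ring
      rw [e]
      refine (abs_add_le _ _).trans ?_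
      rw [abs_mul, abs_mul, abs_of_nonneg h1, abs_of_nonneg hL]
      have h4 : |x a - L| * ∏ i ∈ s, x i ≤ (τ * L) * ((1 + τ) * L) ^ s.card := by gcongr
      have h5 : L * |∏ i ∈ s, x i - L ^ s.card| ≤ L * (((1 + τ) ^ s.card - 1) * L ^ s.card) := by gcongr
      calc _ ≤ _ := add_le_add h4 h5
        _ = _ := by rw [mul_pow]; ring

/-- The residue classes of the vectors of a box are almost equidistributed. -/
theorem sum_bx (N M : ℕ) [NeZero N] (hNM : N ≤ 2 * M + 1) (H : κ → ℕ) (hH : ∀ i, M ≤ H i)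
    (g : (κ → ZMod N) → ℂ) (B : ℝ) (hB : ∀ r, ‖g r‖ ≤ B) :
    ‖avg (bx H) (fun c => g fun i => (c i : ZMod N)) - avg Finset.univ g‖ ≤
      2 ^ Fintype.card κ * ((N : ℝ) / (2 * M + 1)) * B := by
  classical
  have hN0 : (0 : ℝ) < N := by exact_mod_cast Nat.pos_of_ne_zero (NeZero.ne N)
  have hM0 : (0 : ℝ) < 2 * M + 1 := by positivity
  set τ : ℝ := (N : ℝ) / (2 * M + 1) with hτ
  have hτ0 : 0 ≤ τ := by positivity
  have hτ1 : τ ≤ 1 := by
    rw [hτ, div_le_one hM0]
    exact_mod_cast hNM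
  set n : (i : κ) → ZMod N → ℝ := fun i r => ((#{z ∈ IH (H i) | ((z : ℤ) : ZMod N) = r} : ℕ) : ℝ) with hn
  set w : (i : κ) → ZMod N → ℝ := fun i r => n i r / (2 * H i + 1) with hw
  have hcard : ((bx H).card : ℝ) = ∏ i, (2 * (H i : ℝ) + 1) := by
    rw [card_bx]; push_cast; rfl
  have hfib : ∀ r : κ → ZMod N, ((#{c ∈ bx H | (fun i => ((c i : ℤ) : ZMod N)) = r} : ℕ) : ℝ) = ∏ i, n i (r i) := by
    intro r
    rw [hn]
    push_cast
    norm_cast
    rw [← Fintype.card_piFinset]
    congr 1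
    ext c
    simp only [bx, Finset.mem_filter, Fintype.mem_piFinset, funext_iff]
    exact forall_and.symm
  have hwr : ∀ r : κ → ZMod N, |∏ i, w i (r i) - (1 / (N : ℝ)) ^ Fintype.card κ| ≤
      2 ^ Fintype.card κ * τ * (1 / (N : ℝ)) ^ Fintype.card κ := by
    intro r
    have h1 := (prod_close Finset.univ (fun i => w i (r i)) (1 / N) τ (by positivity) hτ0
      (fun i _ => by rw [hw, hn]; positivity) (fun i _ => by
        have h2 := cnt_one_mod (H i) N (r i)
        have hHi : (0 : ℝ) < 2 * H i + 1 := by positivity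
        have e : w i (r i) - 1 / N = (n i (r i) - (2 * H i + 1) / N) / (2 * H i + 1) := by
          rw [hw]; field_simp
        rw [e, abs_div, abs_of_pos hHi, div_le_iff₀ hHi]
        refine h2.trans ?_
        rw [hτ]
        have h3 : (M : ℝ) ≤ H i := by exact_mod_cast hH i
        have h4 : (N : ℝ) / (2 * M + 1) * (1 / N) * (2 * H i + 1) = (2 * H i + 1) / (2 * M + 1) := by
          field_simp
        rw [h4, le_div_iff₀ hM0]
        linarith)).2.2
    rw [Finset.card_univ] at h1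
    refine h1.trans ?_
    have h5 := Pool.Agent.Y722.HS.pow_bd (Fintype.card κ) τ hτ0 hτ1
    have h6 : (1 + τ) ^ Fintype.card κ - 1 ≤ 2 ^ Fintype.card κ * τ := by nlinarith
    gcongr
  have e1 : avg (bx H) (fun c => g fun i => (c i : ZMod N)) =
      ∑ r : κ → ZMod N, ((∏ i, w i (r i) : ℝ) : ℂ) * g r := by
    unfold avg
    rw [← Finset.sum_fiberwise' (bx H) (fun c => fun i => ((c i : ℤ) : ZMod N)) g, Finset.sum_div]
    refine Finset.sum_congr rfl fun r _ => ?_
    rw [Finset.sum_const, nsmul_eq_mul]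
    have h1 := hfib r
    have h2 : ((bx H).card : ℂ) = ((∏ i, (2 * (H i : ℝ) + 1) : ℝ) : ℂ) := by
      rw [← hcard]; push_cast; rfl
    rw [h2, hw, Finset.prod_div_distrib]
    have h3 : ((#{c ∈ bx H | (fun i => ((c i : ℤ) : ZMod N)) = r} : ℕ) : ℂ) = ((∏ i, n i (r i) : ℝ) : ℂ) := by
      rw [← h1]; push_cast; rfl
    rw [h3]
    push_cast
    ring
  have e2 : avg (Finset.univ : Finset (κ → ZMod N)) g =
      ∑ r : κ → ZMod N, (((1 / (N : ℝ)) ^ Fintype.card κ : ℝ) : ℂ) * g r := by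
    unfold avg
    rw [← Finset.mul_sum, Finset.card_univ, Fintype.card_fun, ZMod.card]
    push_cast
    ring
  rw [e1, e2, ← Finset.sum_sub_distrib]
  refine (norm_sum_le _ _).trans ?_
  have hb : ∀ r : κ → ZMod N, ‖((∏ i, w i (r i) : ℝ) : ℂ) * g r - (((1 / (N : ℝ)) ^ Fintype.card κ : ℝ) : ℂ) * g r‖ ≤
      2 ^ Fintype.card κ * τ * (1 / (N : ℝ)) ^ Fintype.card κ * B := by
    intro r
    rw [← sub_mul, norm_mul, ← Complex.ofReal_sub, Complex.norm_real, Real.norm_eq_abs]
    exact mul_le_mul (hwr r) (hB r) (norm_nonneg _) (by positivity)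
  refine (Finset.sum_le_sum fun r _ => hb r).trans ?_
  rw [Finset.sum_const, Finset.card_univ, Fintype.card_fun, ZMod.card, nsmul_eq_mul]
  push_cast
  have e3 : (N : ℝ) ^ Fintype.card κ * (1 / (N : ℝ)) ^ Fintype.card κ = 1 := by
    rw [← mul_pow, mul_one_div_cancel hN0.ne', one_pow]
  calc (N : ℝ) ^ Fintype.card κ * (2 ^ Fintype.card κ * τ * (1 / (N : ℝ)) ^ Fintype.card κ * B)
      = ((N : ℝ) ^ Fintype.card κ * (1 / (N : ℝ)) ^ Fintype.card κ) * (2 ^ Fintype.card κ * τ * B) := by ring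
    _ ≤ 2 ^ Fintype.card κ * τ * B := by rw [e3, one_mul]

/-- The fibres of a surjective homomorphism have the same size. -/
theorem avg_hom {G T : Type*} [AddCommGroup G] [Fintype G] [AddCommGroup T] [Fintype T]
    (Ψ : G →+ T) (hΨ : Function.Surjective Ψ) (g : T → ℂ) :
    avg Finset.univ (fun x => g (Ψ x)) = avg Finset.univ g := by
  classical
  have hfib : ∀ t : T, #{x : G | Ψ x = t} = #{x : G | Ψ x = 0} := by
    intro t
    obtain ⟨x0, hx0⟩ := hΨ t
    refine (Finset.card_bij (fun x _ => x + x0) ?_ ?_ ?_).symm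
    · intro x hx
      simp only [Finset.mem_filter, Finset.mem_univ, true_and] at hx ⊢
      rw [map_add, hx, hx0, zero_add]
    · intro x _ y _ h
      exact add_right_cancel h
    · intro y hy
      simp only [Finset.mem_filter, Finset.mem_univ, true_and] at hy
      refine ⟨y - x0, ?_, by abel⟩
      simp only [Finset.mem_filter, Finset.mem_univ, true_and]
      rw [map_sub, hy, hx0, sub_self]
  set m := #{x : G | Ψ x = 0} with hm
  have hcard : (Fintype.card G : ℂ) = Fintype.card T * m := by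
    have h1 : (Finset.univ : Finset G).card = ∑ t : T, #{x : G | Ψ x = t} :=
      Finset.card_eq_sum_card_fiberwise (f := Ψ) (t := Finset.univ) (fun _ _ => Finset.mem_coe.2 (Finset.mem_univ _))
    rw [Finset.sum_congr rfl fun t _ => hfib t, Finset.sum_const, Finset.card_univ, Finset.card_univ,
      smul_eq_mul] at h1
    exact_mod_cast h1
  have hm0 : (m : ℂ) ≠ 0 := by
    have : 0 < m := Finset.card_pos.2 ⟨0, by simp⟩
    exact_mod_cast this.ne'
  unfold avg
  rw [← Finset.sum_fiberwise' (Finset.univ : Finset G) Ψ g, Finset.card_univ, Finset.card_univ, hcard]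
  have h2 : ∀ t : T, ∑ _x : G with Ψ _x = t, g t = m * g t := by
    intro t
    rw [Finset.sum_const, hfib t, nsmul_eq_mul]
  rw [Finset.sum_congr rfl fun t _ => h2 t, ← Finset.mul_sum]
  rw [mul_comm (m : ℂ), mul_comm (Fintype.card T : ℂ) (m : ℂ), mul_comm (m : ℂ)]
  rw [mul_div_mul_right _ _ hm0]

/-- **Equidistribution of a box in a finite quotient.** -/
theorem avg_bx {T : Type*} [AddCommGroup T] [Fintype T] (Φ : (κ → ℤ) →+ T) (hΦ : Function.Surjective Φ)
    (N M : ℕ) [NeZero N] (hN : ∀ t : T, (N : ℕ) • t = 0) (hNM : N ≤ 2 * M + 1) (H : κ → ℕ)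
    (hH : ∀ i, M ≤ H i) (g : T → ℂ) (B : ℝ) (hB : ∀ t, ‖g t‖ ≤ B) :
    ‖avg (bx H) (fun c => g (Φ c)) - avg Finset.univ g‖ ≤
      2 ^ Fintype.card κ * ((N : ℝ) / (2 * M + 1)) * B := by
  classical
  -- the induced homomorphism
  let ψ : κ → ZMod N →+ T := fun i => ZMod.lift N ⟨zmultiplesHom T (Φ (Pi.single i 1)), by
    rw [zmultiplesHom_apply, natCast_zsmul]
    exact hN _⟩
  let Ψ : (κ → ZMod N) →+ T :=
    { toFun := fun r => ∑ i, ψ i (r i)
      map_zero' := by simp
      map_add' := fun r s => by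
        simp only [Pi.add_apply, map_add, Finset.sum_add_distrib] }
  have hΨ : ∀ c : κ → ℤ, Ψ (fun i => (c i : ZMod N)) = Φ c := by
    intro c
    have h1 : c = ∑ i, c i • (Pi.single i (1 : ℤ) : κ → ℤ) := by
      funext j
      rw [Finset.sum_apply]
      simp [Pi.single_apply]
    show ∑ i, ψ i (c i : ZMod N) = Φ c
    conv_rhs => rw [h1]
    rw [map_sum]
    refine Finset.sum_congr rfl fun i _ => ?_
    show ZMod.lift N _ (c i : ZMod N) = _
    rw [ZMod.lift_coe, map_zsmul]
    rfl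
  have hsurj : Function.Surjective Ψ := by
    intro t
    obtain ⟨c, hc⟩ := hΦ t
    exact ⟨_, (hΨ c).trans hc⟩
  have h2 := sum_bx N M hNM H hH (fun r => g (Ψ r)) B (fun r => hB _)
  rw [avg_hom Ψ hsurj g] at h2
  simp only [hΨ] at h2
  exact h2

end

end Run7.h876.MM
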