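import Pool.Agent.Run7.h876.MM.Lim

/-!
# The mean of a function which is close to a product over finitely many places
-/

set_option autoImplicit false
set_option linter.unusedSectionVars false

namespace Run7.h876.MM

open NumberField IsDedekindDomain Finset Filter Topology

section
variable {K : Type} [Field K] [NumberField K]
variable {ι : Type} [Fintype ι] [DecidableEq ι] (ω : Module.Basis ι ℤ (𝓞 K))

theorem prod_nv_mem (S : Finset (HeightOneSpectrum (𝓞 K))) :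
    ∀ v ∈ S, (((∏ w ∈ S, nv w : ℕ) : ℕ) : 𝓞 K) ∈ v.asIdeal := by
  intro v hv
  have h1 : ((nv v : ℕ) : 𝓞 K) ∈ v.asIdeal := Ideal.absNorm_mem v.asIdeal
  obtain ⟨c, hc⟩ := Finset.dvd_prod_of_mem (fun w : HeightOneSpectrum (𝓞 K) => nv w) hv
  rw [hc]
  push_cast
  exact Ideal.mul_mem_right _ _ h1

theorem avg_sub' {α : Type*} (S : Finset α) (f g : α → ℂ) : avg S f - avg S g = avg S (fun c => f c - g c) := by
  unfold avg
  rw [Finset.sum_sub_distrib, sub_div]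

theorem core (S : Finset (HeightOneSpectrum (𝓞 K))) (X Y M : ℕ) (hM : 1 ≤ M) (hX : M ≤ X) (hY : M ≤ Y)
    (hN : (∏ v ∈ S, nv v) ≤ 2 * M + 1)
    (f : WeierstrassCurve (𝓞 K) → ℂ) (B η : ℝ) (hB : ∀ A C : 𝓞 K, ‖f (curve A C)‖ ≤ B)
    (g : ∀ v : HeightOneSpectrum (𝓞 K), kv v × kv v → ℂ)
    (hη : ∀ A C : 𝓞 K, ‖f (curve A C) - ∏ v ∈ S, g v (rd v (A, C))‖ ≤ η)
    (b : HeightOneSpectrum (𝓞 K) → ℝ) (hg : ∀ v ∈ S, ∀ t, ‖g v t‖ ≤ b v) :
    ‖mean ω X Y f - ∏ v ∈ S, avg Finset.univ (g v)‖ ≤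
      12 * B / (2 * M + 1) + η + 2 ^ Fintype.card (ι ⊕ ι) * (((∏ v ∈ S, nv v : ℕ) : ℝ) / (2 * M + 1)) * ∏ v ∈ S, b v := by
  classical
  have hB0 : 0 ≤ B := (norm_nonneg _).trans (hB 0 0)
  have hη0 : 0 ≤ η := (norm_nonneg _).trans (hη 0 0)
  haveI : NeZero (∏ v ∈ S, nv v) := ⟨Finset.prod_ne_zero_iff.2 fun v _ => by have := two_le_nv v; omega⟩
  have h1 := mean_close ω X Y (hM.trans hY) f B hB
  have h2 : ‖avg (bx (sd ι X Y)) (fun c => f (curve (cf ω c).1 (cf ω c).2)) -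
      avg (bx (sd ι X Y)) (fun c => ∏ v ∈ S, g v (rd v (cf ω c)))‖ ≤ η := by
    rw [avg_sub']
    exact norm_avg_le _ _ _ hη0 fun c _ => hη _ _
  have h3 := box_prod ω S (∏ v ∈ S, nv v) M (prod_nv_mem S) hN (sd ι X Y) (by
    intro i
    rcases i with i | i
    · exact hX
    · exact hY) g b hg
  have h4 : 12 * B / (2 * Y + 1) ≤ 12 * B / (2 * M + 1) := by
    have : (M : ℝ) ≤ Y := by exact_mod_cast hY
    gcongr
  have e : mean ω X Y f - ∏ v ∈ S, avg Finset.univ (g v) =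
      (mean ω X Y f - avg (bx (sd ι X Y)) (fun c => f (curve (cf ω c).1 (cf ω c).2))) +
      (avg (bx (sd ι X Y)) (fun c => f (curve (cf ω c).1 (cf ω c).2)) -
        avg (bx (sd ι X Y)) (fun c => ∏ v ∈ S, g v (rd v (cf ω c)))) +
      (avg (bx (sd ι X Y)) (fun c => ∏ v ∈ S, g v (rd v (cf ω c))) - ∏ v ∈ S, avg Finset.univ (g v)) := by ring
  rw [e]
  refine (norm_add₃_le).trans ?_
  linarith

/-! ### the Euler product of a curve -/

theorem factor_gl (A C : 𝓞 K) (v : HeightOneSpectrum (𝓞 K)) (s : ℂ) :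
    factor (curve A C) v s = gl (kv v) 1 (xv v s) (rd v (A, C)) := by
  have := factor_eq A C v s 1
  rwa [zpow_one] at this

theorem factor_u1 {σ : ℝ} (hσ : 1 / 2 < σ) (A C : 𝓞 K) (v : HeightOneSpectrum (𝓞 K)) {s : ℂ} (hs : σ ≤ s.re) :
    ‖factor (curve A C) v s - 1‖ ≤ u1 σ 1 v := by
  rw [factor_gl]
  exact gl_u1 hσ 1 v hs _

theorem gl_ne {σ : ℝ} (hσ : 1 / 2 < σ) (n : ℤ) (v : HeightOneSpectrum (𝓞 K)) (t : kv v × kv v) {s : ℂ}
    (hs : σ ≤ s.re) : gl (kv v) n (xv v s) t ≠ 0 := by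
  classical
  obtain ⟨h1, h2⟩ := nv_rpow_le hσ v hs
  unfold gl
  by_cases h : ringChar (kv v) ≠ 2 ∧ Gd t
  · rw [if_pos h]
    have hne := EP_ne (T := (T t : ℝ)) (q := (Fintype.card (kv v) : ℝ)) (by positivity) (T_le h.1 t) (y0_lt hσ)
      (xv v s) (by rw [sqrt_mul_xv]; exact h1.trans h2)
    refine zpow_ne_zero _ ?_
    simpa using hne
  · rw [if_neg h]
    exact one_ne_zero

theorem LSeries_zpow {σ : ℝ} (hσ : 3 / 2 < σ) (A C : 𝓞 K) {s : ℂ} (hs : σ ≤ s.re) (n : ℤ) :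
    LSeries (curve A C) s ^ n = ∏' v : HeightOneSpectrum (𝓞 K), gl (kv v) n (xv v s) (rd v (A, C)) := by
  have hσ2 : 1 / 2 < σ := by linarith
  unfold LSeries
  rw [tprod_zpow' (u1_summable hσ 1) (fun v => factor_u1 hσ2 A C v hs) (fun v => by
    rw [factor_gl]; exact gl_ne hσ2 1 v _ hs) n]
  exact tprod_congr fun v => factor_eq A C v s n

/-- **The mean of the power of the L-series in the region of convergence.** -/
theorem part1 (n : ℤ) {δ : ℝ} (hδ : 0 < δ) {ε : ℝ} (hε : 0 < ε) :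
    ∃ M : ℕ, ∀ X Y : ℕ, M ≤ X → M ≤ Y → ∀ s : ℂ, 3 / 2 + δ ≤ s.re →
      ‖mean ω X Y (fun W => LSeries W s ^ n) - dedekindZeta K (2 * s - 1) ^ kap n * GG K n s‖ ≤ ε := by
  classical
  set σ : ℝ := 3 / 2 + δ with hσd
  have hσ : 3 / 2 < σ := by linarith
  have hσ2 : 1 / 2 < σ := by linarith
  have hu := u1_summable (K := K) hσ n
  set u : HeightOneSpectrum (𝓞 K) → ℝ := u1 σ n with hud
  obtain ⟨S, hS⟩ := tail_small hu (ε := ε / 4) (by linarith)
  have hS' := hS S subset_rfl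
  set N : ℕ := ∏ v ∈ S, nv v with hN
  set B : ℝ := Real.exp (∑' v, u v) with hB
  set P : ℝ := ∏ v ∈ S, (1 + u v) with hP
  set c : ℝ := 2 ^ Fintype.card (ι ⊕ ι) with hc
  have hu0 : ∀ v, 0 ≤ u v := fun v => (norm_nonneg _).trans (mv_u1 hσ2 n v (s := (σ : ℂ)) (by simp))
  have hP0 : 0 ≤ P := Finset.prod_nonneg fun v _ => by have := hu0 v; linarith
  obtain ⟨M, hM⟩ := exists_nat_ge (max (N : ℝ) (max (12 * B / (ε / 4)) (c * N * P / (ε / 4))) + 1)
  have hM1 : (N : ℝ) + 1 ≤ M := (add_le_add_left (le_max_left _ _) _).trans hM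
  have hM2 : 12 * B / (ε / 4) ≤ M := by
    have := (le_max_left (12 * B / (ε / 4)) (c * N * P / (ε / 4))).trans (le_max_right (N : ℝ) _)
    linarith
  have hM3 : c * N * P / (ε / 4) ≤ M := by
    have := (le_max_right (12 * B / (ε / 4)) (c * N * P / (ε / 4))).trans (le_max_right (N : ℝ) _)
    linarith
  have hNM : N + 1 ≤ M := by exact_mod_cast hM1
  refine ⟨M, fun X Y hX hY s hs => ?_⟩
  have hs1 : 1 < s.re := by linarith
  have hmv := tail_bound hu (fun v => mv_u1 (K := K) hσ2 n v hs) S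
  rw [tprod_mv n hs1] at hmv
  have hcore := core ω S X Y M (by omega) hX hY (by omega)
    (fun W => LSeries W s ^ n) B (ε / 4)
    (fun A C => by
      show ‖LSeries (curve A C) s ^ n‖ ≤ B
      rw [LSeries_zpow hσ A C hs n]
      exact tprod_le_exp hu fun v => gl_u1 hσ2 n v hs _)
    (fun v => gl (kv v) n (xv v s))
    (fun A C => by
      show ‖LSeries (curve A C) s ^ n - _‖ ≤ _
      rw [LSeries_zpow hσ A C hs n]
      exact (tail_bound hu (fun v => gl_u1 hσ2 n v hs _) S).trans hS'.le)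
    (fun v => 1 + u v)
    (fun v _ t => by
      have h1 := gl_u1 hσ2 n v hs t
      have h2 := norm_add_le (gl (kv v) n (xv v s) t - 1) 1
      rw [sub_add_cancel, norm_one] at h2
      linarith)
  have hMp : (0 : ℝ) < 2 * M + 1 := by positivity
  have h1 : 12 * B / (2 * M + 1) ≤ ε / 4 := by
    rw [div_le_iff₀ hMp]
    rw [div_le_iff₀ (by linarith)] at hM2
    nlinarith
  have h2 : c * ((N : ℝ) / (2 * M + 1)) * P ≤ ε / 4 := by
    have e : c * ((N : ℝ) / (2 * M + 1)) * P = c * N * P / (2 * M + 1) := by ring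
    rw [e, div_le_iff₀ hMp]
    rw [div_le_iff₀ (by linarith)] at hM3
    nlinarith
  have e : mean ω X Y (fun W => LSeries W s ^ n) - dedekindZeta K (2 * s - 1) ^ kap n * GG K n s =
      (mean ω X Y (fun W => LSeries W s ^ n) - ∏ v ∈ S, mv n v s) -
      (dedekindZeta K (2 * s - 1) ^ kap n * GG K n s - ∏ v ∈ S, mv n v s) := by ring
  rw [e]
  refine (norm_sub_le _ _).trans ?_
  have h3 : ‖mean ω X Y (fun W => LSeries W s ^ n) - ∏ v ∈ S, mv n v s‖ ≤
      12 * B / (2 * M + 1) + ε / 4 + c * ((N : ℝ) / (2 * M + 1)) * P := hcore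
  linarith [hS'.le]

end

end Run7.h876.MM
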