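import Mathlib

/-!
# L-series of the curves `y² = x³ + A x + B` over a number field and their mean values: definitions
-/

set_option autoImplicit false

namespace Run7.h876.MM

open NumberField IsDedekindDomain

section
variable {K : Type} [Field K] [NumberField K]

/-- The norm `Nv` of the place `v`. -/
noncomputable def nv (v : HeightOneSpectrum (𝓞 K)) : ℕ := Ideal.absNorm v.asIdeal

/-- The curve `y² = x³ + A x + B`. -/
def curve (A B : 𝓞 K) : WeierstrassCurve (𝓞 K) := ⟨0, 0, 0, A, B⟩

/-- The trace of Frobenius at `v`: `Nv` minus the number of the affine points of the reduction. -/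
noncomputable def trace (W : WeierstrassCurve (𝓞 K)) (v : HeightOneSpectrum (𝓞 K)) : ℤ :=
  (nv v : ℤ) - (Nat.card {P : (𝓞 K ⧸ v.asIdeal) × (𝓞 K ⧸ v.asIdeal) //
    (W.map (Ideal.Quotient.mk v.asIdeal)).toAffine.Equation P.1 P.2} : ℤ)

open Classical in
/-- The Euler factor at `v`, if `v` does not divide the discriminant, and `1` otherwise. -/
noncomputable def factor (W : WeierstrassCurve (𝓞 K)) (v : HeightOneSpectrum (𝓞 K)) (s : ℂ) : ℂ :=
  if W.Δ ∈ v.asIdeal then 1
  else (1 - (trace W v : ℂ) * (nv v : ℂ) ^ (-s) + (nv v : ℂ) ^ (1 - 2 * s))⁻¹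

/-- The L-series without the Euler factors at the places which divide the discriminant of the
equation. -/
noncomputable def LSeries (W : WeierstrassCurve (𝓞 K)) (s : ℂ) : ℂ :=
  ∏' v : HeightOneSpectrum (𝓞 K), factor W v s

open Classical in
/-- The part of the Euler product with `Nv ≤ Z`, a finite product. -/
noncomputable def partialProduct (Z : ℕ) (W : WeierstrassCurve (𝓞 K)) (s : ℂ) : ℂ :=
  ∏' v : HeightOneSpectrum (𝓞 K), if nv v ≤ Z then factor W v s else 1

open Classical in
variable (K) in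
/-- The inverse of the part with `Nv ≤ Z` of the Euler product of the zeta function of `K`, a finite
product. -/
noncomputable def partialZetaInv (Z : ℕ) (w : ℂ) : ℂ :=
  ∏' v : HeightOneSpectrum (𝓞 K), if nv v ≤ Z then 1 - (nv v : ℂ) ^ (-w) else 1

variable {ι : Type} [Fintype ι] [DecidableEq ι]

open Classical in
/-- The pairs of integer vectors `(a, b)` with `|a_i| ≤ X`, `|b_i| ≤ Y` for which the discriminant of
`y² = x³ + A x + B`, `A = ∑ a_i ω_i`, `B = ∑ b_i ω_i`, is not zero. -/
noncomputable def family (ω : Module.Basis ι ℤ (𝓞 K)) (X Y : ℕ) : Finset ((ι → ℤ) × (ι → ℤ)) :=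
  ((Fintype.piFinset fun _ => Finset.Icc (-(X : ℤ)) X) ×ˢ
    (Fintype.piFinset fun _ => Finset.Icc (-(Y : ℤ)) Y)).filter fun c =>
      (curve (∑ i, c.1 i • ω i) (∑ i, c.2 i • ω i)).Δ ≠ 0

/-- The mean value of a function over the curves with coefficients in the box. -/
noncomputable def mean (ω : Module.Basis ι ℤ (𝓞 K)) (X Y : ℕ)
    (f : WeierstrassCurve (𝓞 K) → ℂ) : ℂ :=
  (∑ c ∈ family ω X Y, f (curve (∑ i, c.1 i • ω i) (∑ i, c.2 i • ω i))) / ((family ω X Y).card : ℂ)

end

end Run7.h876.MM
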