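import Pool.Agent.H341R2.WeilSharp

/-!
# Moments of the traces of Frobenius of the curves `y² = x³ + a x + b` over a finite field
-/

set_option autoImplicit false

namespace Run7.h876.MM

open Finset

section
variable {k : Type*} [Field k] [Fintype k] [DecidableEq k]

/-- The character sum `∑ χ(x³ + a x + b)`; the trace of Frobenius is its negative. -/
def T (c : k × k) : ℤ := ∑ x : k, quadraticChar k (x ^ 3 + c.1 * x + c.2)

/-- Non-singular cubics (the characteristic is not two). -/
def Gd (c : k × k) : Prop := 4 * c.1 ^ 3 + 27 * c.2 ^ 2 ≠ 0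

instance : DecidablePred (Gd (k := k)) := fun c => by unfold Gd; infer_instance

theorem T_le (hk : ringChar k ≠ 2) (c : k × k) : |(T c : ℝ)| ≤ 2 * Real.sqrt (Fintype.card k) := by
  set f : Polynomial k := Polynomial.X ^ 3 + Polynomial.C c.1 * Polynomial.X + Polynomial.C c.2 with hf
  have hdeg : f.natDegree = 3 := by rw [hf]; compute_degree!
  have h1 := Pool.Agent.H341R2.Sharp.weil_sharp hk f (by omega) (by
    intro a h hq
    have ha : a ≠ 0 := by
      rintro rfl
      rw [Polynomial.C_0, zero_mul] at hq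
      rw [hq] at hdeg
      simp at hdeg
    have hqd : 2 * h.natDegree = 3 := by
      rw [hq, Polynomial.natDegree_C_mul ha, Polynomial.natDegree_pow] at hdeg
      exact hdeg
    omega)
  rw [hdeg] at h1
  have h2 : (T c : ℝ) = ∑ x : k, (quadraticChar k (f.eval x) : ℝ) := by
    unfold T
    push_cast
    refine Finset.sum_congr rfl fun x _ => ?_
    rw [hf]
    simp
  rw [h2]
  refine h1.trans (le_of_eq ?_)
  norm_num

theorem T_twist (u : k) (hu : u ≠ 0) (c : k × k) :
    T (u ^ 2 * c.1, u ^ 3 * c.2) = quadraticChar k u * T c := by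
  unfold T
  rw [Finset.mul_sum]
  refine (Fintype.sum_equiv (Equiv.mulLeft₀ u hu) _ _ fun x => ?_).symm
  simp only [Equiv.mulLeft₀_apply]
  have e : (u * x) ^ 3 + u ^ 2 * c.1 * (u * x) + u ^ 3 * c.2 = u ^ 2 * u * (x ^ 3 + c.1 * x + c.2) := by ring
  rw [e, map_mul, map_mul, map_pow, quadraticChar_sq_one hu, one_mul]

omit [Fintype k] [DecidableEq k] in
theorem Gd_twist (u : k) (hu : u ≠ 0) (c : k × k) : Gd (u ^ 2 * c.1, u ^ 3 * c.2) ↔ Gd c := by
  unfold Gd
  have e : 4 * (u ^ 2 * c.1) ^ 3 + 27 * (u ^ 3 * c.2) ^ 2 = u ^ 6 * (4 * c.1 ^ 3 + 27 * c.2 ^ 2) := by ring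
  simp only [e]
  rw [mul_ne_zero_iff]
  exact ⟨fun h => h.2, fun h => ⟨pow_ne_zero _ hu, h⟩⟩

/-- Odd functions of the trace have mean zero over the non-singular cubics. -/
theorem sum_odd (hk : ringChar k ≠ 2) (g : ℂ → ℂ) (hg : ∀ z, g (-z) = -g z) :
    ∑ c : k × k, (if Gd c then g (T c) else 0) = 0 := by
  obtain ⟨u, hu⟩ := quadraticChar_exists_neg_one' hk
  have hu0 : (u : k) ≠ 0 := u.ne_zero
  let e : k × k ≃ k × k := (Equiv.mulLeft₀ ((u : k) ^ 2) (pow_ne_zero _ hu0)).prodCongr
    (Equiv.mulLeft₀ ((u : k) ^ 3) (pow_ne_zero _ hu0))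
  have h1 : ∑ c : k × k, (if Gd c then g (T c) else 0) = ∑ c : k × k, (if Gd (e c) then g (T (e c)) else 0) :=
    (Equiv.sum_comp e _).symm
  have h2 : ∀ c : k × k, (if Gd (e c) then g (T (e c)) else 0) = -(if Gd c then g (T c) else 0) := by
    intro c
    have e1 : e c = ((u : k) ^ 2 * c.1, (u : k) ^ 3 * c.2) := rfl
    rw [e1, T_twist _ hu0, hu]
    by_cases h : Gd c
    · rw [if_pos ((Gd_twist _ hu0 c).2 h), if_pos h]
      push_cast
      rw [neg_one_mul, hg]
    · rw [if_neg (fun h' => h ((Gd_twist _ hu0 c).1 h')), if_neg h, neg_zero]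
  rw [Finset.sum_congr rfl fun c _ => h2 c, Finset.sum_neg_distrib] at h1
  exact self_eq_neg.mp h1

theorem sum_T_sq (hk : ringChar k ≠ 2) :
    ∑ c : k × k, (T c) ^ 2 = (Fintype.card k : ℤ) ^ 3 - (Fintype.card k : ℤ) ^ 2 := by
  set q : ℤ := (Fintype.card k : ℤ) with hq
  have hsum0 : ∑ a : k, quadraticChar k a = 0 := quadraticChar_sum_zero hk
  have hsq : ∑ a : k, (quadraticChar k a) ^ 2 = q - 1 := by
    have h1 : ∀ a : k, (quadraticChar k a) ^ 2 = if a = 0 then 0 else 1 := by
      intro a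
      split_ifs with h
      · rw [h, MulChar.map_zero]; norm_num
      · exact quadraticChar_sq_one h
    rw [Finset.sum_congr rfl fun a _ => h1 a]
    have h2 : ∑ a : k, (if a = 0 then (0 : ℤ) else 1) = ∑ a : k, ((1 : ℤ) - if a = 0 then 1 else 0) := by
      refine Finset.sum_congr rfl fun a _ => ?_
      split_ifs <;> norm_num
    rw [h2, Finset.sum_sub_distrib, Finset.sum_ite_eq' Finset.univ (0 : k)]
    simp [hq]
  have h1 : ∑ c : k × k, (T c) ^ 2 = ∑ x : k, ∑ y : k, ∑ c : k × k,
      quadraticChar k (x ^ 3 + c.1 * x + c.2) * quadraticChar k (y ^ 3 + c.1 * y + c.2) := by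
    have h2 : ∀ c : k × k, (T c) ^ 2 = ∑ x : k, ∑ y : k,
        quadraticChar k (x ^ 3 + c.1 * x + c.2) * quadraticChar k (y ^ 3 + c.1 * y + c.2) := by
      intro c
      unfold T
      rw [sq, Finset.sum_mul_sum]
    rw [Finset.sum_congr rfl fun c _ => h2 c, Finset.sum_comm]
    refine Finset.sum_congr rfl fun x _ => ?_
    rw [Finset.sum_comm]
  have h3 : ∀ x y : k, ∑ c : k × k,
      quadraticChar k (x ^ 3 + c.1 * x + c.2) * quadraticChar k (y ^ 3 + c.1 * y + c.2) =
      if x = y then q * (q - 1) else 0 := by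
    intro x y
    split_ifs with h
    · subst h
      rw [Fintype.sum_prod_type]
      have h4 : ∀ a : k, ∑ b : k, quadraticChar k (x ^ 3 + a * x + b) * quadraticChar k (x ^ 3 + a * x + b) =
          q - 1 := by
        intro a
        rw [← hsq]
        exact Fintype.sum_equiv (Equiv.addLeft (x ^ 3 + a * x)) _ _ fun b => by
          simp only [Equiv.coe_addLeft]
          rw [sq]
      simp only [h4]
      rw [Finset.sum_const, Finset.card_univ, nsmul_eq_mul]
    · have hxy : x - y ≠ 0 := sub_ne_zero.2 h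
      let e : k × k ≃ k × k :=
        { toFun := fun c => (x ^ 3 + c.1 * x + c.2, y ^ 3 + c.1 * y + c.2)
          invFun := fun d => (((d.1 - x ^ 3) - (d.2 - y ^ 3)) / (x - y),
            (d.1 - x ^ 3) - ((d.1 - x ^ 3) - (d.2 - y ^ 3)) / (x - y) * x)
          left_inv := fun c => by
            ext
            · simp only; field_simp; ring
            · simp only; field_simp; ring
          right_inv := fun d => by
            ext
            · simp only; field_simp; ring
            · simp only; field_simp; ring }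
      have h5 : ∑ c : k × k, quadraticChar k (x ^ 3 + c.1 * x + c.2) * quadraticChar k (y ^ 3 + c.1 * y + c.2) =
          ∑ d : k × k, quadraticChar k d.1 * quadraticChar k d.2 :=
        Fintype.sum_equiv e _ _ fun c => rfl
      rw [h5, Fintype.sum_prod_type, ← Finset.sum_mul_sum, hsum0, zero_mul]
  rw [h1]
  simp only [h3]
  simp only [Finset.sum_ite_eq, Finset.mem_univ, if_true]
  rw [Finset.sum_const, Finset.card_univ, nsmul_eq_mul]
  ring

/-- There are at most `2 q` singular cubics. -/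
theorem card_bad (hk : ringChar k ≠ 2) : #{c : k × k | ¬ Gd c} ≤ 2 * Fintype.card k := by
  have h2 : (2 : k) ≠ 0 := by
    intro h
    exact hk (Nat.dvd_prime Nat.prime_two |>.1 ((ringChar.spec k 2).1 (by exact_mod_cast h)) |>.resolve_left
      (CharP.ringChar_ne_one))
  have h4 : (4 : k) ≠ 0 := by
    have : (4 : k) = 2 * 2 := by norm_num
    rw [this]; exact mul_ne_zero h2 h2
  by_cases h27 : (27 : k) = 0
  · -- then `a = 0`
    have hsub : ({c : k × k | ¬ Gd c} : Finset (k × k)) ⊆ (Finset.univ : Finset k).image fun b => ((0 : k), b) := by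
      intro c hc
      simp only [Finset.mem_filter, Finset.mem_univ, true_and, Gd, not_not, h27, zero_mul, add_zero] at hc
      have h5 : c.1 = 0 := by
        rcases mul_eq_zero.1 hc with h | h
        · exact absurd h h4
        · exact pow_eq_zero_iff (by norm_num) |>.1 h
      simp only [Finset.mem_image, Finset.mem_univ, true_and]
      exact ⟨c.2, by rw [← h5]⟩
    calc _ ≤ _ := Finset.card_le_card hsub
      _ ≤ (Finset.univ : Finset k).card := Finset.card_image_le
      _ ≤ _ := by rw [Finset.card_univ]; omega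
  · -- for each `a` there are at most two `b`
    have h5 : #{c : k × k | ¬ Gd c} = ∑ a : k, #{c ∈ ({c : k × k | ¬ Gd c} : Finset (k × k)) | c.1 = a} :=
      Finset.card_eq_sum_card_fiberwise (fun _ _ => Finset.mem_coe.2 (Finset.mem_univ _))
    have h6 : ∀ a : k, #{c ∈ ({c : k × k | ¬ Gd c} : Finset (k × k)) | c.1 = a} ≤ 2 := by
      intro a
      by_contra hlt
      push Not at hlt
      obtain ⟨x, y, z, hx, hy, hz, hxy, hxz, hyz⟩ := Finset.two_lt_card_iff.1 hlt
      simp only [Finset.mem_filter, Finset.mem_univ, true_and, Gd, not_not] at hx hy hz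
      obtain ⟨hx1, hx2⟩ := hx
      obtain ⟨hy1, hy2⟩ := hy
      obtain ⟨hz1, hz2⟩ := hz
      rw [hx2] at hx1
      rw [hy2] at hy1
      rw [hz2] at hz1
      have k1 : (x.2 - y.2) * (x.2 + y.2) = 0 := by
        have : (27 : k) * ((x.2 - y.2) * (x.2 + y.2)) = 0 := by linear_combination hx1 - hy1
        exact (mul_eq_zero.1 this).resolve_left h27
      have k2 : (x.2 - z.2) * (x.2 + z.2) = 0 := by
        have : (27 : k) * ((x.2 - z.2) * (x.2 + z.2)) = 0 := by linear_combination hx1 - hz1
        exact (mul_eq_zero.1 this).resolve_left h27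
      have n1 : x.2 - y.2 ≠ 0 := fun h => hxy (Prod.ext (hx2.trans hy2.symm) (sub_eq_zero.1 h))
      have n2 : x.2 - z.2 ≠ 0 := fun h => hxz (Prod.ext (hx2.trans hz2.symm) (sub_eq_zero.1 h))
      have m1 := (mul_eq_zero.1 k1).resolve_left n1
      have m2 := (mul_eq_zero.1 k2).resolve_left n2
      exact hyz (Prod.ext (hy2.trans hz2.symm) (by linear_combination m1 - m2))
    rw [h5]
    calc _ ≤ ∑ _a : k, 2 := Finset.sum_le_sum fun a _ => h6 a
      _ = _ := by rw [Finset.sum_const, Finset.card_univ, smul_eq_mul, mul_comm]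

/-- The number of affine points. -/
theorem card_pts (hk : ringChar k ≠ 2) (c : k × k) :
    ((#{P : k × k | P.2 ^ 2 = P.1 ^ 3 + c.1 * P.1 + c.2} : ℕ) : ℤ) = Fintype.card k + T c := by
  have h1 : #{P : k × k | P.2 ^ 2 = P.1 ^ 3 + c.1 * P.1 + c.2} =
      ∑ x : k, #{P ∈ ({P : k × k | P.2 ^ 2 = P.1 ^ 3 + c.1 * P.1 + c.2} : Finset (k × k)) | P.1 = x} :=
    Finset.card_eq_sum_card_fiberwise (fun _ _ => Finset.mem_coe.2 (Finset.mem_univ _))
  have h2 : ∀ x : k, ((#{P ∈ ({P : k × k | P.2 ^ 2 = P.1 ^ 3 + c.1 * P.1 + c.2} : Finset (k × k)) | P.1 = x} : ℕ) : ℤ)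
      = quadraticChar k (x ^ 3 + c.1 * x + c.2) + 1 := by
    intro x
    rw [← quadraticChar_card_sqrts hk]
    norm_cast
    refine Finset.card_bij (fun P _ => P.2) ?_ ?_ ?_
    · intro P hP
      simp only [Finset.mem_filter, Finset.mem_univ, true_and] at hP
      simp only [Set.mem_toFinset, Set.mem_ofPred_eq]
      rw [hP.1, hP.2]
    · intro P hP Q hQ h
      simp only [Finset.mem_filter, Finset.mem_univ, true_and] at hP hQ
      exact Prod.ext (hP.2.trans hQ.2.symm) h
    · intro y hy
      simp only [Set.mem_toFinset, Set.mem_ofPred_eq] at hy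
      exact ⟨(x, y), by simp [hy], rfl⟩
  rw [h1]
  push_cast
  rw [Finset.sum_congr rfl fun x _ => h2 x, Finset.sum_add_distrib]
  simp [T, add_comm]

end

end Run7.h876.MM
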