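import Pool.Agent.Run7.h876.MM.Red

/-!
# Infinite products, and the mean over the nonsingular curves of a box
-/

set_option autoImplicit false
set_option linter.unusedSectionVars false

namespace Run7.h876.MM

open NumberField IsDedekindDomain Finset Filter Topology

/-! ### infinite products -/

section
variable {α : Type*} {g : α → ℂ} {u : α → ℝ}

theorem mult_of (hu : Summable u) (hg : ∀ v, ‖g v - 1‖ ≤ u v) : Multipliable g := by
  have h1 : Summable fun v => ‖g v - 1‖ := Summable.of_nonneg_of_le (fun _ => norm_nonneg _) hg hu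
  have h2 := multipliable_one_add_of_summable (f := fun v => g v - 1) h1
  simpa using h2

theorem prod_le_exp (hg : ∀ v, ‖g v - 1‖ ≤ u v) (S : Finset α) : ‖∏ v ∈ S, g v‖ ≤ Real.exp (∑ v ∈ S, u v) := by
  rw [norm_prod, Real.exp_sum]
  refine Finset.prod_le_prod (fun _ _ => norm_nonneg _) fun v _ => ?_
  have h1 : ‖g v‖ ≤ 1 + u v := by
    have := norm_add_le (g v - 1) 1
    rw [sub_add_cancel, norm_one] at this
    linarith [hg v]
  refine h1.trans ?_
  have := Real.add_one_le_exp (u v)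
  linarith

theorem prod_sub_one_le (hg : ∀ v, ‖g v - 1‖ ≤ u v) (S : Finset α) :
    ‖∏ v ∈ S, g v - 1‖ ≤ Real.exp (∑ v ∈ S, u v) - 1 := by
  have h1 := Finset.norm_prod_one_add_sub_one_le S (fun v => g v - 1)
  simp only [add_sub_cancel] at h1
  refine h1.trans ?_
  have : ∑ v ∈ S, ‖g v - 1‖ ≤ ∑ v ∈ S, u v := Finset.sum_le_sum fun v _ => hg v
  have := Real.exp_le_exp.2 this
  linarith

/-- The tail of an infinite product. -/
theorem tail_bound (hu : Summable u) (hg : ∀ v, ‖g v - 1‖ ≤ u v) (S : Finset α) :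
    ‖∏' v, g v - ∏ v ∈ S, g v‖ ≤ Real.exp (∑' v, u v) * (Real.exp (∑' v, u v - ∑ v ∈ S, u v) - 1) := by
  classical
  have hu0 : ∀ v, 0 ≤ u v := fun v => (norm_nonneg _).trans (hg v)
  have h1 := (mult_of hu hg).hasProd
  have h2 : Tendsto (fun F : Finset α => ‖∏ v ∈ F, g v - ∏ v ∈ S, g v‖) atTop
      (𝓝 ‖∏' v, g v - ∏ v ∈ S, g v‖) := (h1.sub_const _).norm
  refine le_of_tendsto h2 ?_
  filter_upwards [Filter.eventually_ge_atTop S] with F hF
  have e : ∏ v ∈ F, g v - ∏ v ∈ S, g v = (∏ v ∈ S, g v) * (∏ v ∈ F \ S, g v - 1) := by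
    rw [← Finset.prod_sdiff hF]; ring
  rw [e, norm_mul]
  have hsum : ∑ v ∈ F \ S, u v ≤ ∑' v, u v - ∑ v ∈ S, u v := by
    have h3 : ∑ v ∈ F \ S, u v + ∑ v ∈ S, u v = ∑ v ∈ F, u v := Finset.sum_sdiff hF
    have h4 : ∑ v ∈ F, u v ≤ ∑' v, u v := hu.sum_le_tsum F (fun v _ => hu0 v)
    linarith
  have hS : ∑ v ∈ S, u v ≤ ∑' v, u v := hu.sum_le_tsum S (fun v _ => hu0 v)
  refine mul_le_mul ((prod_le_exp hg S).trans (Real.exp_le_exp.2 hS))
    ((prod_sub_one_le hg _).trans ?_) (norm_nonneg _) (Real.exp_pos _).le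
  have := Real.exp_le_exp.2 hsum
  linarith

theorem tprod_le_exp (hu : Summable u) (hg : ∀ v, ‖g v - 1‖ ≤ u v) : ‖∏' v, g v‖ ≤ Real.exp (∑' v, u v) := by
  have hu0 : ∀ v, 0 ≤ u v := fun v => (norm_nonneg _).trans (hg v)
  have h1 := (mult_of hu hg).hasProd
  refine le_of_tendsto h1.norm (Filter.Eventually.of_forall fun F => ?_)
  show ∏ b ∈ F, ‖g b‖ ≤ _
  rw [← norm_prod]
  exact (prod_le_exp hg F).trans (Real.exp_le_exp.2 (hu.sum_le_tsum F (fun v _ => hu0 v)))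

/-- For large `S` the tail is small. -/
theorem tail_small (hu : Summable u) {ε : ℝ} (hε : 0 < ε) :
    ∃ S : Finset α, ∀ S' : Finset α, S ⊆ S' →
      Real.exp (∑' v, u v) * (Real.exp (∑' v, u v - ∑ v ∈ S', u v) - 1) < ε := by
  have h1 : Tendsto (fun S : Finset α => Real.exp (∑' v, u v) * (Real.exp (∑' v, u v - ∑ v ∈ S, u v) - 1)) atTop
      (𝓝 (Real.exp (∑' v, u v) * (Real.exp (∑' v, u v - ∑' v, u v) - 1))) := by
    have h2 : Tendsto (fun S : Finset α => ∑ v ∈ S, u v) atTop (𝓝 (∑' v, u v)) := hu.hasSum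
    exact (((Real.continuous_exp.tendsto _).comp (tendsto_const_nhds.sub h2)).sub_const 1).const_mul _
  rw [sub_self, Real.exp_zero, sub_self, mul_zero] at h1
  obtain ⟨S, hS⟩ := Filter.eventually_atTop.1 (h1.eventually (gt_mem_nhds hε))
  exact ⟨S, fun S' h => hS S' h⟩

theorem tprod_ne (hu : Summable u) (hg : ∀ v, ‖g v - 1‖ ≤ u v) (h0 : ∀ v, g v ≠ 0) : ∏' v, g v ≠ 0 := by
  have h1 : Summable fun v => ‖g v - 1‖ := Summable.of_nonneg_of_le (fun _ => norm_nonneg _) hg hu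
  have h2 := tprod_one_add_ne_zero_of_summable (f := fun v => g v - 1) (fun v => by simpa using h0 v) h1
  simpa using h2

theorem tprod_zpow' (hu : Summable u) (hg : ∀ v, ‖g v - 1‖ ≤ u v) (h0 : ∀ v, g v ≠ 0) (n : ℤ) :
    (∏' v, g v) ^ n = ∏' v, g v ^ n := by
  have h1 := (mult_of hu hg).hasProd
  have h2 : HasProd (fun v => g v ^ n) ((∏' v, g v) ^ n) := by
    have h3 : Tendsto (fun F : Finset α => (∏ v ∈ F, g v) ^ n) atTop (𝓝 ((∏' v, g v) ^ n)) :=
      Tendsto.zpow₀ h1 n (Or.inl (tprod_ne hu hg h0))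
    refine h3.congr fun F => ?_
    exact (Finset.prod_zpow g F n).symm
  exact h2.tprod_eq.symm

end

/-! ### the family -/

section
variable {K : Type} [Field K] [NumberField K] {ι : Type} [Fintype ι] [DecidableEq ι]
variable (ω : Module.Basis ι ℤ (𝓞 K))

/-- the sides of the box -/
def sd (ι : Type) (X Y : ℕ) : ι ⊕ ι → ℕ := Sum.elim (fun _ => X) (fun _ => Y)

/-- the full box of pairs -/
noncomputable def fb (ι : Type) [Fintype ι] [DecidableEq ι] (X Y : ℕ) : Finset ((ι → ℤ) × (ι → ℤ)) :=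
  (Fintype.piFinset fun _ => Finset.Icc (-(X : ℤ)) X) ×ˢ (Fintype.piFinset fun _ => Finset.Icc (-(Y : ℤ)) Y)

theorem sum_bx_eq (X Y : ℕ) (F : (ι → ℤ) × (ι → ℤ) → ℂ) :
    ∑ c ∈ bx (sd ι X Y), F (fun i => c (Sum.inl i), fun i => c (Sum.inr i)) = ∑ c ∈ fb ι X Y, F c := by
  refine Finset.sum_bij (fun c _ => (fun i => c (Sum.inl i), fun i => c (Sum.inr i))) ?_ ?_ ?_ ?_
  · intro c hc
    simp only [bx, Fintype.mem_piFinset, Pool.Agent.Y722.HS.IH, Finset.mem_Icc, sd] at hc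
    simp only [fb, Finset.mem_product, Fintype.mem_piFinset, Finset.mem_Icc]
    exact ⟨fun i => by simpa using hc (Sum.inl i), fun i => by simpa using hc (Sum.inr i)⟩
  · intro c _ d _ h
    simp only [Prod.mk.injEq] at h
    funext i
    rcases i with i | i
    · exact congrFun h.1 i
    · exact congrFun h.2 i
  · intro d hd
    simp only [fb, Finset.mem_product, Fintype.mem_piFinset, Finset.mem_Icc] at hd
    refine ⟨Sum.elim d.1 d.2, ?_, ?_⟩
    · simp only [bx, Fintype.mem_piFinset, Pool.Agent.Y722.HS.IH, Finset.mem_Icc, sd]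
      rintro (i | i)
      · simpa using hd.1 i
      · simpa using hd.2 i
    · simp
  · intro c _
    rfl

theorem card_fb (X Y : ℕ) : (fb ι X Y).card = (2 * X + 1) ^ Fintype.card ι * (2 * Y + 1) ^ Fintype.card ι := by
  unfold fb
  rw [Finset.card_product, Fintype.card_piFinset, Fintype.card_piFinset, Finset.prod_const, Finset.prod_const,
    Finset.card_univ, Int.card_Icc, Int.card_Icc]
  congr 2
  · omega
  · omega

theorem card_bx_sd (X Y : ℕ) : (bx (sd ι X Y)).card = (fb ι X Y).card := by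
  have h := sum_bx_eq (ι := ι) X Y (fun _ => (1 : ℂ))
  simp only [Finset.sum_const, nsmul_eq_mul, mul_one] at h
  exact_mod_cast h

theorem card_iota_pos (ω : Module.Basis ι ℤ (𝓞 K)) : 0 < Fintype.card ι := by
  rw [Fintype.card_pos_iff]
  by_contra h
  rw [not_nonempty_iff] at h
  have h1 := ω.ext_elem_iff (x := (1 : 𝓞 K)) (y := 0)
  have h2 : (1 : 𝓞 K) = 0 := h1.2 fun i => (IsEmpty.false i).elim
  exact one_ne_zero h2

open Classical in
/-- Few curves are singular. -/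
theorem card_sing (X Y : ℕ) : (((fb ι X Y).filter fun c =>
      ¬ (curve (∑ i, c.1 i • ω i) (∑ i, c.2 i • ω i)).Δ ≠ 0).card : ℕ) ≤ 2 * (2 * X + 1) ^ Fintype.card ι := by
  classical
  set Z := (fb ι X Y).filter fun c => ¬ (curve (∑ i, c.1 i • ω i) (∑ i, c.2 i • ω i)).Δ ≠ 0 with hZ
  set PA : Finset (ι → ℤ) := Fintype.piFinset fun _ => Finset.Icc (-(X : ℤ)) X with hPA
  have hmap : ∀ c ∈ Z, c.1 ∈ PA := by
    intro c hc
    rw [hZ, Finset.mem_filter] at hc
    exact (Finset.mem_product.1 hc.1).1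
  have h5 : Z.card = ∑ a ∈ PA, #{c ∈ Z | c.1 = a} := Finset.card_eq_sum_card_fiberwise hmap
  have h6 : ∀ a ∈ PA, #{c ∈ Z | c.1 = a} ≤ 2 := by
    intro a _
    by_contra hlt
    push Not at hlt
    obtain ⟨x, y, z, hx, hy, hz, hxy, hxz, hyz⟩ := Finset.two_lt_card_iff.1 hlt
    have key : ∀ c : (ι → ℤ) × (ι → ℤ), c ∈ ({c ∈ Z | c.1 = a} : Finset _) →
        c.1 = a ∧ 4 * (∑ i, a i • ω i) ^ 3 + 27 * (∑ i, c.2 i • ω i) ^ 2 = 0 := by
      intro c hc
      rw [Finset.mem_filter] at hc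
      obtain ⟨hc1, hc2⟩ := hc
      rw [hZ, Finset.mem_filter, not_not, disc_curve] at hc1
      refine ⟨hc2, ?_⟩
      rw [← hc2]
      have h16 : (-16 : 𝓞 K) ≠ 0 := by norm_num
      exact (mul_eq_zero.1 hc1.2).resolve_left h16
    obtain ⟨hx1, hx2⟩ := key x hx
    obtain ⟨hy1, hy2⟩ := key y hy
    obtain ⟨hz1, hz2⟩ := key z hz
    have inj : ∀ c d : (ι → ℤ) × (ι → ℤ), c.1 = a → d.1 = a → ∑ i, c.2 i • ω i = ∑ i, d.2 i • ω i → c = d := by
      intro c d hc hd h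
      refine Prod.ext (hc.trans hd.symm) ?_
      have h7 := ω.repr_sum_self c.2
      have h8 := ω.repr_sum_self d.2
      rw [h, h8] at h7
      exact h7.symm
    have h27 : (27 : 𝓞 K) ≠ 0 := by norm_num
    have k1 : (∑ i, x.2 i • ω i - ∑ i, y.2 i • ω i) * (∑ i, x.2 i • ω i + ∑ i, y.2 i • ω i) = 0 := by
      have : (27 : 𝓞 K) * ((∑ i, x.2 i • ω i - ∑ i, y.2 i • ω i) * (∑ i, x.2 i • ω i + ∑ i, y.2 i • ω i)) = 0 := by
        linear_combination hx2 - hy2
      exact (mul_eq_zero.1 this).resolve_left h27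
    have k2 : (∑ i, x.2 i • ω i - ∑ i, z.2 i • ω i) * (∑ i, x.2 i • ω i + ∑ i, z.2 i • ω i) = 0 := by
      have : (27 : 𝓞 K) * ((∑ i, x.2 i • ω i - ∑ i, z.2 i • ω i) * (∑ i, x.2 i • ω i + ∑ i, z.2 i • ω i)) = 0 := by
        linear_combination hx2 - hz2
      exact (mul_eq_zero.1 this).resolve_left h27
    have n1 : ∑ i, x.2 i • ω i - ∑ i, y.2 i • ω i ≠ 0 := fun h => hxy (inj x y hx1 hy1 (sub_eq_zero.1 h))
    have n2 : ∑ i, x.2 i • ω i - ∑ i, z.2 i • ω i ≠ 0 := fun h => hxz (inj x z hx1 hz1 (sub_eq_zero.1 h))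
    have m1 := (mul_eq_zero.1 k1).resolve_left n1
    have m2 := (mul_eq_zero.1 k2).resolve_left n2
    exact hyz (inj y z hy1 hz1 (by linear_combination m1 - m2))
  rw [h5]
  refine (Finset.sum_le_sum h6).trans ?_
  rw [Finset.sum_const, smul_eq_mul, hPA, Fintype.card_piFinset, Finset.prod_const, Finset.card_univ, Int.card_Icc,
    mul_comm]
  apply le_of_eq
  congr 2
  omega

/-- **From the box to the nonsingular curves.** -/
theorem mean_close (X Y : ℕ) (hY : 1 ≤ Y) (f : WeierstrassCurve (𝓞 K) → ℂ) (B : ℝ)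
    (hB : ∀ A C : 𝓞 K, ‖f (curve A C)‖ ≤ B) :
    ‖mean ω X Y f - avg (bx (sd ι X Y)) (fun c => f (curve (cf ω c).1 (cf ω c).2))‖ ≤ 12 * B / (2 * Y + 1) := by
  classical
  have hB0 : 0 ≤ B := (norm_nonneg _).trans (hB 0 0)
  set F : (ι → ℤ) × (ι → ℤ) → ℂ := fun c => f (curve (∑ i, c.1 i • ω i) (∑ i, c.2 i • ω i)) with hF
  have hFB : ∀ c, ‖F c‖ ≤ B := fun c => hB _ _
  have e1 : avg (bx (sd ι X Y)) (fun c => f (curve (cf ω c).1 (cf ω c).2)) = (∑ c ∈ fb ι X Y, F c) / ((fb ι X Y).card : ℂ) := by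
    unfold avg
    rw [card_bx_sd, ← sum_bx_eq X Y F]
    rfl
  have e2 : mean ω X Y f = (∑ c ∈ family ω X Y, F c) / ((family ω X Y).card : ℂ) := rfl
  have e3 : family ω X Y = (fb ι X Y).filter fun c => (curve (∑ i, c.1 i • ω i) (∑ i, c.2 i • ω i)).Δ ≠ 0 := rfl
  set b : ℝ := ((fb ι X Y).card : ℝ) with hb
  set z : ℝ := (((fb ι X Y).filter fun c =>
      ¬ (curve (∑ i, c.1 i • ω i) (∑ i, c.2 i • ω i)).Δ ≠ 0).card : ℝ) with hz
  set φ : ℝ := ((family ω X Y).card : ℝ) with hφ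
  have hbφ : b = φ + z := by
    rw [hb, hφ, hz, e3]
    exact_mod_cast (Finset.card_filter_add_card_filter_not (s := fb ι X Y)
      (fun c => (curve (∑ i, c.1 i • ω i) (∑ i, c.2 i • ω i)).Δ ≠ 0)).symm
  have hzb : z * (2 * Y + 1) ≤ 2 * b := by
    have h1 : z ≤ 2 * (2 * X + 1) ^ Fintype.card ι := by
      rw [hz]; exact_mod_cast card_sing ω X Y
    have h2 : b = (2 * X + 1) ^ Fintype.card ι * (2 * Y + 1) ^ Fintype.card ι := by
      rw [hb, card_fb]; push_cast; rfl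
    have h3 : (2 * (Y : ℝ) + 1) ≤ (2 * Y + 1) ^ Fintype.card ι := by
      have h4 : (1 : ℝ) ≤ 2 * Y + 1 := by
        have : (0 : ℝ) ≤ Y := by positivity
        linarith
      calc (2 * (Y : ℝ) + 1) = (2 * Y + 1) ^ 1 := (pow_one _).symm
        _ ≤ _ := pow_le_pow_right₀ h4 (card_iota_pos ω)
    rw [h2]
    calc z * (2 * Y + 1) ≤ (2 * (2 * X + 1) ^ Fintype.card ι) * (2 * Y + 1) ^ Fintype.card ι := by gcongr
      _ = _ := by ring
  have hY1 : (1 : ℝ) ≤ Y := by exact_mod_cast hY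
  have hb0 : 0 < b := by rw [hb, card_fb]; positivity
  have hz0 : 0 ≤ z := by positivity
  have hφ0 : b / 3 ≤ φ := by
    have : z * 3 ≤ 2 * b := le_trans (by nlinarith) hzb
    linarith
  have hφpos : 0 < φ := by linarith
  have e4 : ∑ c ∈ fb ι X Y, F c = ∑ c ∈ family ω X Y, F c + ∑ c ∈ (fb ι X Y).filter (fun c =>
      ¬ (curve (∑ i, c.1 i • ω i) (∑ i, c.2 i • ω i)).Δ ≠ 0), F c := by
    rw [e3]; exact (Finset.sum_filter_add_sum_filter_not _ _ _).symm
  set s1 := ∑ c ∈ family ω X Y, F c with hs1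
  set s2 := ∑ c ∈ (fb ι X Y).filter (fun c =>
      ¬ (curve (∑ i, c.1 i • ω i) (∑ i, c.2 i • ω i)).Δ ≠ 0), F c with hs2
  have n1 : ‖s1‖ ≤ φ * B := by
    rw [hs1]
    refine (norm_sum_le _ _).trans ((Finset.sum_le_sum fun c _ => hFB c).trans ?_)
    rw [Finset.sum_const, nsmul_eq_mul]
  have n2 : ‖s2‖ ≤ z * B := by
    rw [hs2]
    refine (norm_sum_le _ _).trans ((Finset.sum_le_sum fun c _ => hFB c).trans ?_)
    rw [Finset.sum_const, nsmul_eq_mul]
  have hbc : ((fb ι X Y).card : ℂ) = (b : ℂ) := by rw [hb]; push_cast; rfl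
  have hφc : ((family ω X Y).card : ℂ) = (φ : ℂ) := by rw [hφ]; push_cast; rfl
  rw [e1, e2, e4, hbc, hφc]
  have hbne : (b : ℂ) ≠ 0 := by exact_mod_cast hb0.ne'
  have hφne : (φ : ℂ) ≠ 0 := by exact_mod_cast hφpos.ne'
  have e5 : s1 / (φ : ℂ) - (s1 + s2) / (b : ℂ) = (z : ℂ) * s1 / (φ * b) - s2 / b := by
    have : (b : ℂ) = φ + z := by rw [hbφ]; push_cast; rfl
    field_simp
    rw [this]
    ring
  rw [e5]
  refine (norm_sub_le _ _).trans ?_
  rw [norm_div, norm_div, norm_mul, norm_mul, Complex.norm_real, Complex.norm_real, Complex.norm_real,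
    Real.norm_eq_abs, Real.norm_eq_abs, Real.norm_eq_abs, abs_of_nonneg hz0, abs_of_pos hφpos, abs_of_pos hb0]
  have q1 : z * ‖s1‖ / (φ * b) ≤ B * (z / b) := by
    rw [div_le_iff₀ (by positivity)]
    calc z * ‖s1‖ ≤ z * (φ * B) := by gcongr
      _ = B * (z / b) * (φ * b) := by field_simp
  have q2 : ‖s2‖ / b ≤ B * (z / b) := by
    rw [div_le_iff₀ hb0]
    calc ‖s2‖ ≤ z * B := n2
      _ = B * (z / b) * b := by field_simp
  have q3 : z / b ≤ 2 / (2 * Y + 1) := by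
    rw [div_le_div_iff₀ hb0 (by positivity)]
    linarith
  calc _ ≤ B * (z / b) + B * (z / b) := add_le_add q1 q2
    _ ≤ B * (2 / (2 * Y + 1)) + B * (2 / (2 * Y + 1)) := by gcongr
    _ = 4 * B / (2 * Y + 1) := by ring
    _ ≤ 12 * B / (2 * Y + 1) := by gcongr; norm_num

end

end Run7.h876.MM
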