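import Pool.Agent.Run7.h876.MM.Glo
import Pool.Agent.R426.QC.Ep
import Pool.Agent.H484R2.Zeta

/-!
# The limit functions
-/

set_option autoImplicit false
set_option linter.unusedSectionVars false

namespace Run7.h876.MM

open NumberField IsDedekindDomain Finset Filter Topology

section
variable {K : Type} [Field K] [NumberField K]

/-- the local mean -/
noncomputable def mv (n : ℤ) (v : HeightOneSpectrum (𝓞 K)) (s : ℂ) : ℂ :=
  avg Finset.univ (gl (kv v) n (xv v s))

/-- the corrected local mean -/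
noncomputable def hv (n : ℤ) (v : HeightOneSpectrum (𝓞 K)) (s : ℂ) : ℂ :=
  mv n v s * (1 - (nv v : ℂ) ^ (1 - 2 * s)) ^ kap n

variable (K) in
/-- the holomorphic factor of the limit -/
noncomputable def GG (n : ℤ) (s : ℂ) : ℂ := ∏' v : HeightOneSpectrum (𝓞 K), hv n v s

theorem nv_rpow_le {σ : ℝ} (hσ : 1 / 2 < σ) (v : HeightOneSpectrum (𝓞 K)) {s : ℂ} (hs : σ ≤ s.re) :
    (nv v : ℝ) ^ (1 / 2 - s.re) ≤ (nv v : ℝ) ^ (1 / 2 - σ) ∧ (nv v : ℝ) ^ (1 / 2 - σ) ≤ 2 ^ (1 / 2 - σ) := by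
  have h2 : (2 : ℝ) ≤ nv v := by exact_mod_cast two_le_nv v
  constructor
  · exact Real.rpow_le_rpow_of_exponent_le (by linarith) (by linarith)
  · exact Real.rpow_le_rpow_of_nonpos (by norm_num) h2 (by linarith)

theorem y0_lt {σ : ℝ} (hσ : 1 / 2 < σ) : (2 : ℝ) ^ (1 / 2 - σ) < 1 :=
  Real.rpow_lt_one_of_one_lt_of_neg (by norm_num) (by linarith)

/-- the majorant of the factors in `Re s ≥ σ > 3/2` -/
noncomputable def u1 (σ : ℝ) (n : ℤ) (v : HeightOneSpectrum (𝓞 K)) : ℝ :=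
  Cc (2 ^ (1 / 2 - σ)) n * (nv v : ℝ) ^ (1 / 2 - σ)

theorem Cc_nonneg (y : ℝ) (n : ℤ) : 0 ≤ Cc y n := by unfold Cc; positivity

theorem u1_summable {σ : ℝ} (hσ : 3 / 2 < σ) (n : ℤ) :
    Summable (u1 σ n : HeightOneSpectrum (𝓞 K) → ℝ) := by
  unfold u1
  have h := (Pool.Agent.H921R2.TatePole.nm_summable (K := K) (x := σ - 1 / 2) (by linarith)).mul_left
    (Cc (2 ^ (1 / 2 - σ)) n)
  refine h.congr fun v => ?_
  rw [nv_eq]
  congr 2
  ring

theorem gl_u1 {σ : ℝ} (hσ : 1 / 2 < σ) (n : ℤ) (v : HeightOneSpectrum (𝓞 K)) {s : ℂ} (hs : σ ≤ s.re)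
    (t : kv v × kv v) : ‖gl (kv v) n (xv v s) t - 1‖ ≤ u1 σ n v := by
  obtain ⟨h1, h2⟩ := nv_rpow_le hσ v hs
  have h3 := gl_sub_one (y0_lt hσ) n (xv v s) (by rw [sqrt_mul_xv]; exact h1.trans h2) t
  rw [sqrt_mul_xv] at h3
  unfold u1
  exact h3.trans (mul_le_mul_of_nonneg_left h1 (Cc_nonneg _ _))

theorem mv_u1 {σ : ℝ} (hσ : 1 / 2 < σ) (n : ℤ) (v : HeightOneSpectrum (𝓞 K)) {s : ℂ} (hs : σ ≤ s.re) :
    ‖mv n v s - 1‖ ≤ u1 σ n v :=
  avg_sub_one_le _ ⟨(0, 0), Finset.mem_univ _⟩ _ _ fun t _ => gl_u1 hσ n v hs t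

theorem mv_le {σ : ℝ} (hσ : 1 / 2 < σ) (n : ℤ) (v : HeightOneSpectrum (𝓞 K)) {s : ℂ} (hs : σ ≤ s.re) :
    ‖mv n v s‖ ≤ Bd (2 ^ (1 / 2 - σ)) n := by
  obtain ⟨h1, h2⟩ := nv_rpow_le hσ v hs
  exact norm_avg_le _ _ _ (zero_le_one.trans (one_le_Bd n)) fun t _ =>
    gl_le (y0_lt hσ) n (xv v s) (by rw [sqrt_mul_xv]; exact h1.trans h2) t

theorem zfac_norm (v : HeightOneSpectrum (𝓞 K)) (s : ℂ) :
    ‖(nv v : ℂ) ^ (1 - 2 * s)‖ = (nv v : ℝ) ^ (1 - 2 * s.re) := by
  have h : 0 < nv v := by have := two_le_nv v; omega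
  rw [Complex.norm_natCast_cpow_of_pos h]
  congr 1
  simp

theorem zfac_le {σ : ℝ} (hσ : 1 / 2 < σ) (v : HeightOneSpectrum (𝓞 K)) {s : ℂ} (hs : σ ≤ s.re) :
    ‖1 - (nv v : ℂ) ^ (1 - 2 * s)‖ ≤ 2 := by
  refine (norm_sub_le _ _).trans ?_
  rw [norm_one, zfac_norm]
  have h2 : (2 : ℝ) ≤ nv v := by exact_mod_cast two_le_nv v
  have : (nv v : ℝ) ^ (1 - 2 * s.re) ≤ 1 := Real.rpow_le_one_of_one_le_of_nonpos (by linarith) (by linarith)
  linarith

theorem finite_nv_le (Z : ℕ) : {v : HeightOneSpectrum (𝓞 K) | nv v ≤ Z}.Finite := by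
  have h1 := Ideal.finite_setOfPred_absNorm_le (S := 𝓞 K) Z
  have h2 : Function.Injective (fun v : HeightOneSpectrum (𝓞 K) => v.asIdeal) := fun v w h =>
    HeightOneSpectrum.ext h
  exact h1.preimage h2.injOn

theorem finite_char_two : {v : HeightOneSpectrum (𝓞 K) | ringChar (kv v) = 2}.Finite := by
  have h1 := Ideal.finite_factors (R := 𝓞 K) (I := Ideal.span {2}) (by
    rw [Ne, Ideal.zero_eq_bot, Ideal.span_singleton_eq_bot]
    norm_num)
  refine h1.subset fun v hv => ?_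
  show v.asIdeal ∣ Ideal.span {2}
  rw [Ideal.dvd_span_singleton, ← Ideal.Quotient.eq_zero_iff_mem, map_ofNat]
  exact ring_char_two hv

/-- **The majorant of the corrected local means in `Re s ≥ σ > 3/4`.** -/
theorem exists_u {σ : ℝ} (hσ : 3 / 4 < σ) (n : ℤ) : ∃ u : HeightOneSpectrum (𝓞 K) → ℝ, Summable u ∧
    ∀ (v : HeightOneSpectrum (𝓞 K)) (s : ℂ), σ ≤ s.re → ‖hv n v s - 1‖ ≤ u v := by
  classical
  obtain ⟨C, hC, hloc⟩ := local_corr n
  set D : ℝ := Bd (2 ^ (1 / 2 - σ)) n * 2 ^ kap n + 1 with hD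
  have hσ2 : 1 / 2 < σ := by linarith
  have hD0 : 0 ≤ D := by
    have := one_le_Bd (y₀ := 2 ^ (1 / 2 - σ)) n
    positivity
  set cond : HeightOneSpectrum (𝓞 K) → Prop := fun v => ringChar (kv v) ≠ 2 ∧ (nv v : ℝ) ^ (1 / 2 - σ) ≤ 1 / 6
  refine ⟨fun v => C * ((nv v : ℝ) ^ (-(2 * σ)) + (nv v : ℝ) ^ (-(4 * σ - 2))) + (if cond v then 0 else D), ?_, ?_⟩
  · refine Summable.add ?_ ?_
    · exact ((Pool.Agent.H921R2.TatePole.nm_summable (K := K) (x := 2 * σ) (by linarith)).add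
        (Pool.Agent.H921R2.TatePole.nm_summable (K := K) (x := 4 * σ - 2) (by linarith))).mul_left C
    · have hfin : {v : HeightOneSpectrum (𝓞 K) | ¬ cond v}.Finite := by
        set Z : ℕ := ⌈(6 : ℝ) ^ (1 / (σ - 1 / 2))⌉₊ with hZ
        refine (finite_char_two.union (finite_nv_le Z)).subset fun v hv => ?_
        simp only [Set.mem_union, Set.mem_ofPred_eq]
        by_contra hne
        push Not at hne
        apply hv
        refine ⟨hne.1, ?_⟩
        have h3 : (6 : ℝ) ^ (1 / (σ - 1 / 2)) ≤ nv v :=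
          (Nat.le_ceil _).trans (by exact_mod_cast hne.2.le)
        have h4 : (6 : ℝ) ≤ (nv v : ℝ) ^ (σ - 1 / 2) := by
          have h5 := Real.rpow_le_rpow (by positivity) h3 (by linarith : 0 ≤ σ - 1 / 2)
          rw [← Real.rpow_mul (by norm_num), one_div_mul_cancel (by linarith), Real.rpow_one] at h5
          exact h5
        have h6 : (nv v : ℝ) ^ (1 / 2 - σ) = ((nv v : ℝ) ^ (σ - 1 / 2))⁻¹ := by
          rw [← Real.rpow_neg (nv_pos v).le]
          congr 1
          ring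
        rw [h6]
        have h7 := inv_anti₀ (by norm_num : (0 : ℝ) < 6) h4
        rw [one_div]
        norm_num at h7 ⊢
        exact h7
      refine summable_of_hasFiniteSupport (hfin.subset fun v hv => ?_)
      intro hc
      apply hv
      simp [hc]
  · intro v s hs
    obtain ⟨h1, h2⟩ := nv_rpow_le hσ2 v hs
    have h2nv : (2 : ℝ) ≤ nv v := by exact_mod_cast two_le_nv v
    by_cases hc : cond v
    · simp only [if_pos hc, add_zero]
      have h3 := hloc (kv v) hc.1 (xv v s) (by rw [sqrt_mul_xv]; exact h1.trans hc.2)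
      rw [sqrt_mul_xv, card_kv, ← xv_sq] at h3
      refine h3.trans (mul_le_mul_of_nonneg_left (add_le_add ?_ ?_) hC)
      · rw [norm_xv, ← Real.rpow_natCast, ← Real.rpow_mul (nv_pos v).le]
        refine Real.rpow_le_rpow_of_exponent_le (by linarith) ?_
        push_cast
        linarith
      · rw [← Real.rpow_natCast, ← Real.rpow_mul (nv_pos v).le]
        refine Real.rpow_le_rpow_of_exponent_le (by linarith) ?_
        push_cast
        linarith
    · simp only [if_neg hc]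
      have h3 : ‖hv n v s - 1‖ ≤ D := by
        refine (norm_sub_le _ _).trans ?_
        rw [norm_one, hD]
        unfold hv
        rw [norm_mul, norm_pow]
        have h4 := mul_le_mul (mv_le hσ2 n v hs) (pow_le_pow_left₀ (norm_nonneg _) (zfac_le hσ2 v hs) (kap n))
          (by positivity) (zero_le_one.trans (one_le_Bd n))
        linarith
      have h4 : 0 ≤ C * ((nv v : ℝ) ^ (-(2 * σ)) + (nv v : ℝ) ^ (-(4 * σ - 2))) := by
        have := (nv_pos v).le
        positivity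
      linarith

/-! ### holomorphy -/

theorem xv_diff (v : HeightOneSpectrum (𝓞 K)) : Differentiable ℂ (xv v) := by
  intro s
  have h : (nv v : ℂ) ≠ 0 := by exact_mod_cast (nv_pos v).ne'
  unfold xv
  exact (differentiableAt_id.neg).const_cpow (Or.inl h)

theorem gl_diff {σ : ℝ} (hσ : 1 / 2 < σ) (n : ℤ) (v : HeightOneSpectrum (𝓞 K)) (t : kv v × kv v) {s : ℂ}
    (hs : σ ≤ s.re) : DifferentiableAt ℂ (fun s => gl (kv v) n (xv v s) t) s := by
  obtain ⟨h1, h2⟩ := nv_rpow_le hσ v hs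
  unfold gl
  by_cases h : ringChar (kv v) ≠ 2 ∧ Gd t
  · simp only [if_pos h]
    have hne := EP_ne (T := (T t : ℝ)) (q := (Fintype.card (kv v) : ℝ)) (by positivity) (T_le h.1 t) (y0_lt hσ)
      (xv v s) (by rw [sqrt_mul_xv]; exact h1.trans h2)
    have hd : DifferentiableAt ℂ (fun s => EP (T t) (Fintype.card (kv v)) (xv v s)) s := by
      unfold EP
      have := (xv_diff v) s
      fun_prop
    refine DifferentiableAt.zpow hd (Or.inl ?_)
    simpa using hne
  · simp only [if_neg h]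
    exact differentiableAt_const _

theorem mv_diff {σ : ℝ} (hσ : 1 / 2 < σ) (n : ℤ) (v : HeightOneSpectrum (𝓞 K)) {s : ℂ}
    (hs : σ ≤ s.re) : DifferentiableAt ℂ (mv n v) s := by
  unfold mv avg
  exact (DifferentiableAt.fun_sum fun t _ => gl_diff hσ n v t hs).div_const _

theorem hv_diff {σ : ℝ} (hσ : 1 / 2 < σ) (n : ℤ) (v : HeightOneSpectrum (𝓞 K)) {s : ℂ}
    (hs : σ ≤ s.re) : DifferentiableAt ℂ (hv n v) s := by
  unfold hv
  have h : (nv v : ℂ) ≠ 0 := by exact_mod_cast (nv_pos v).ne'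
  have h1 : DifferentiableAt ℂ (fun s : ℂ => (nv v : ℂ) ^ (1 - 2 * s)) s :=
    DifferentiableAt.const_cpow (by fun_prop) (Or.inl h)
  exact (mv_diff hσ n v hs).mul ((h1.const_sub 1).pow _)

theorem GG_diff (n : ℤ) : DifferentiableOn ℂ (GG K n) {s | 3 / 4 < s.re} := by
  classical
  intro s₀ hs₀
  have hs₀' : 3 / 4 < s₀.re := hs₀
  set σ : ℝ := (3 / 4 + s₀.re) / 2 with hσ
  have hσ1 : 3 / 4 < σ := by rw [hσ]; linarith
  have hσ2 : σ < s₀.re := by rw [hσ]; linarith
  obtain ⟨u, hu, hub⟩ := exists_u (K := K) hσ1 n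
  have hopen : IsOpen {s : ℂ | σ < s.re} := isOpen_lt continuous_const Complex.continuous_re
  have hT : TendstoUniformlyOn (fun (F : Finset (HeightOneSpectrum (𝓞 K))) s => ∏ v ∈ F, hv n v s) (GG K n) atTop
      {s : ℂ | σ < s.re} := by
    rw [Metric.tendstoUniformlyOn_iff]
    intro ε hε
    obtain ⟨S, hS⟩ := tail_small hu hε
    filter_upwards [Filter.eventually_ge_atTop S] with F hF s hs
    rw [dist_eq_norm]
    have hs' : σ < s.re := hs
    exact (tail_bound hu (fun v => hub v s hs'.le) F).trans_lt (hS F hF)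
  have hd := hT.tendstoLocallyUniformlyOn.differentiableOn (Filter.Eventually.of_forall fun F s hs => by
    have hs' : σ < s.re := hs
    exact (DifferentiableAt.fun_finsetProd fun v _ => hv_diff (by linarith) n v hs'.le).differentiableWithinAt) hopen
  exact ((hd s₀ hσ2).differentiableAt (hopen.mem_nhds hσ2)).differentiableWithinAt

/-! ### positivity -/

theorem xv_real (v : HeightOneSpectrum (𝓞 K)) (x : ℝ) : xv v (x : ℂ) = (((nv v : ℝ) ^ (-x) : ℝ) : ℂ) := by
  unfold xv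
  rw [Complex.ofReal_cpow (nv_pos v).le]
  push_cast
  rfl

theorem hv_real {x : ℝ} (hx : 1 / 2 < x) (n : ℤ) (v : HeightOneSpectrum (𝓞 K)) :
    ∃ r : ℝ, 0 < r ∧ hv n v (x : ℂ) = (r : ℂ) := by
  classical
  have hgl : ∀ t : kv v × kv v, ∃ r : ℝ, 0 < r ∧ gl (kv v) n (xv v (x : ℂ)) t = (r : ℂ) := by
    intro t
    unfold gl
    by_cases h : ringChar (kv v) ≠ 2 ∧ Gd t
    · rw [if_pos h]
      obtain ⟨h1, h2⟩ := nv_rpow_le hx v (s := (x : ℂ)) (by simp)
      have hX : Real.sqrt (Fintype.card (kv v)) * ‖xv v (x : ℂ)‖ ≤ 2 ^ (1 / 2 - x) := by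
        rw [sqrt_mul_xv]; exact h1.trans h2
      have hq : (0 : ℝ) ≤ Fintype.card (kv v) := by positivity
      obtain ⟨α, hα, he⟩ := EP_factor (T := (T t : ℝ)) hq (T_le h.1 t) (xv v (x : ℂ))
      have hne := EP_ne (T := (T t : ℝ)) hq (T_le h.1 t) (y0_lt hx) (xv v (x : ℂ)) hX
      have e1 : (1 - (starRingEnd ℂ) α * xv v (x : ℂ)) = (starRingEnd ℂ) (1 - α * xv v (x : ℂ)) := by
        rw [map_sub, map_mul, map_one, xv_real, Complex.conj_ofReal]
      rw [e1, Complex.mul_conj] at he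
      have e2 : EP (T t : ℂ) (Fintype.card (kv v)) (xv v (x : ℂ)) =
          ((Complex.normSq (1 - α * xv v (x : ℂ)) : ℝ) : ℂ) := by
        rw [← he]; norm_cast
      have hpos : 0 < Complex.normSq (1 - α * xv v (x : ℂ)) := by
        rw [Complex.normSq_pos]
        intro h0
        rw [he, h0] at hne
        simp at hne
      refine ⟨Complex.normSq (1 - α * xv v (x : ℂ)) ^ (-n), zpow_pos hpos _, ?_⟩
      rw [e2]; push_cast; rfl
    · rw [if_neg h]
      exact ⟨1, one_pos, by simp⟩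
  choose r hr hr2 using hgl
  have hm : mv n v (x : ℂ) = (((∑ t, r t) / Fintype.card (kv v × kv v) : ℝ) : ℂ) := by
    unfold mv avg
    rw [Finset.sum_congr rfl fun t _ => hr2 t, Finset.card_univ]
    push_cast
    rfl
  have hz : (nv v : ℂ) ^ (1 - 2 * (x : ℂ)) = (((nv v : ℝ) ^ (1 - 2 * x) : ℝ) : ℂ) := by
    rw [Complex.ofReal_cpow (nv_pos v).le]
    push_cast
    rfl
  have h2nv : (2 : ℝ) ≤ nv v := by exact_mod_cast two_le_nv v
  have hlt : (nv v : ℝ) ^ (1 - 2 * x) < 1 := Real.rpow_lt_one_of_one_lt_of_neg (by linarith) (by linarith)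
  refine ⟨(∑ t, r t) / Fintype.card (kv v × kv v) * (1 - (nv v : ℝ) ^ (1 - 2 * x)) ^ kap n, ?_, ?_⟩
  · have h1 : 0 < ∑ t, r t := Finset.sum_pos (fun t _ => hr t) ⟨(0, 0), Finset.mem_univ _⟩
    have h2 : (0 : ℝ) < Fintype.card (kv v × kv v) := by exact_mod_cast Fintype.card_pos
    have h3 : 0 < 1 - (nv v : ℝ) ^ (1 - 2 * x) := by linarith
    positivity
  · unfold hv
    rw [hm, hz]
    push_cast
    rfl

theorem GG_real {x : ℝ} (hx : 3 / 4 < x) (n : ℤ) : ∃ r : ℝ, 0 < r ∧ GG K n (x : ℂ) = (r : ℂ) := by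
  classical
  obtain ⟨u, hu, hub⟩ := exists_u (K := K) hx n
  have hb : ∀ v, ‖hv (K := K) n v (x : ℂ) - 1‖ ≤ u v := fun v => hub v _ (by simp)
  have h1 := (mult_of hu hb).hasProd
  choose r hr hr2 using fun v => hv_real (K := K) (x := x) (by linarith) n v
  have hne : GG K n (x : ℂ) ≠ 0 := tprod_ne hu hb fun v => by
    rw [hr2 v]; exact_mod_cast (hr v).ne'
  have hprod : ∀ F : Finset (HeightOneSpectrum (𝓞 K)), ∏ v ∈ F, hv n v (x : ℂ) = ((∏ v ∈ F, r v : ℝ) : ℂ) := by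
    intro F
    rw [Finset.prod_congr rfl fun v _ => hr2 v]
    push_cast; rfl
  have hre : Tendsto (fun F : Finset (HeightOneSpectrum (𝓞 K)) => (∏ v ∈ F, r v : ℝ)) atTop
      (𝓝 (GG K n (x : ℂ)).re) := by
    have := (Complex.continuous_re.tendsto _).comp h1
    refine this.congr fun F => ?_
    simp only [Function.comp_apply, hprod, Complex.ofReal_re]
  have him : Tendsto (fun _ : Finset (HeightOneSpectrum (𝓞 K)) => (0 : ℝ)) atTop
      (𝓝 (GG K n (x : ℂ)).im) := by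
    have := (Complex.continuous_im.tendsto _).comp h1
    refine this.congr fun F => ?_
    simp only [Function.comp_apply, hprod, Complex.ofReal_im]
  have him0 : (GG K n (x : ℂ)).im = 0 := tendsto_nhds_unique him tendsto_const_nhds
  have hre0 : 0 ≤ (GG K n (x : ℂ)).re := ge_of_tendsto' hre fun F => (Finset.prod_pos fun v _ => hr v).le
  have he : GG K n (x : ℂ) = ((GG K n (x : ℂ)).re : ℂ) := by
    apply Complex.ext
    · simp
    · simp [him0]
  refine ⟨(GG K n (x : ℂ)).re, lt_of_le_of_ne hre0 fun h => hne ?_, he⟩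
  rw [he, ← h]; simp

/-! ### the zeta function -/

/-- the term of a nonzero ideal -/
noncomputable def fC (s : ℂ) (I : Ideal (𝓞 K)) : ℂ :=
  open Classical in if I = ⊥ then 0 else ((Ideal.absNorm I : ℕ) : ℂ) ^ (-s)

theorem hasSum_fC {s : ℂ} (hs : 1 < s.re) : HasSum (fC (K := K) s) (dedekindZeta K s) := by
  classical
  have h := Pool.Agent.H484R2.hasSum_ideals K hs
  rw [← Pool.Agent.H484R2.zeta_eq K hs] at h
  have hinj : Function.Injective (fun I : Pool.Agent.H484R2.NZI K => I.1) :=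
    Subtype.val_injective
  rw [← hinj.hasSum_iff]
  · convert h using 1
    funext I
    simp only [Function.comp_apply, fC, if_neg I.2]
  · intro I hI
    unfold fC
    by_contra hne
    apply hI
    by_cases h0 : I = ⊥
    · rw [if_pos h0] at hne
      exact absurd rfl hne
    · exact ⟨⟨I, h0⟩, rfl⟩

theorem cmiC {s : ℂ} (hs : 1 < s.re) : Pool.Agent.R426.QC.CMI (fC (K := K) s) where
  zero := by
    unfold fC
    rw [if_pos rfl]
  one := by
    unfold fC
    rw [if_neg (by exact top_ne_bot), Ideal.absNorm_top]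
    simp
  mul I J := by
    unfold fC
    by_cases hI : I = ⊥
    · rw [if_pos hI, if_pos (by rw [hI, Ideal.bot_mul]), zero_mul]
    · by_cases hJ : J = ⊥
      · rw [if_pos hJ, if_pos (by rw [hJ, Ideal.mul_bot]), mul_zero]
      · rw [if_neg hI, if_neg hJ, if_neg (by
          intro h
          rcases Ideal.mul_eq_bot.mp h with h | h
          · exact hI h
          · exact hJ h), map_mul]
        push_cast
        rw [← Complex.natCast_mul_natCast_cpow]
  summ := (hasSum_fC hs).summable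

theorem hasProd_zeta {s : ℂ} (hs : 1 < s.re) :
    HasProd (fun v : HeightOneSpectrum (𝓞 K) => (1 - (nv v : ℂ) ^ (-s))⁻¹) (dedekindZeta K s) := by
  have h2 := Pool.Agent.R426.QC.hasProdI (cmiC (K := K) hs)
  rw [(hasSum_fC (K := K) hs).tsum_eq] at h2
  refine h2.congr_fun ?_ |> fun h => h
  intro v
  unfold fC nv
  rw [if_neg v.ne_bot]

/-- **The product of the local means.** -/
theorem tprod_mv (n : ℤ) {s : ℂ} (hs : 1 < s.re) :
    ∏' v : HeightOneSpectrum (𝓞 K), mv n v s = dedekindZeta K (2 * s - 1) ^ kap n * GG K n s := by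
  have h1 : HasProd (fun v : HeightOneSpectrum (𝓞 K) => (1 - (nv v : ℂ) ^ (-(2 * s - 1)))⁻¹)
      (dedekindZeta K (2 * s - 1)) := hasProd_zeta (by simp; linarith)
  have h2 : HasProd (fun v : HeightOneSpectrum (𝓞 K) => ((1 - (nv v : ℂ) ^ (-(2 * s - 1)))⁻¹) ^ kap n)
      (dedekindZeta K (2 * s - 1) ^ kap n) := by
    have h3 : Tendsto (fun F : Finset (HeightOneSpectrum (𝓞 K)) => (∏ v ∈ F, (1 - (nv v : ℂ) ^ (-(2 * s - 1)))⁻¹) ^ kap n)
        atTop (𝓝 (dedekindZeta K (2 * s - 1) ^ kap n)) := Tendsto.pow h1 _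
    refine h3.congr fun F => ?_
    exact (Finset.prod_pow _ _ _).symm
  obtain ⟨u, hu, hub⟩ := exists_u (K := K) (σ := s.re) (by linarith) n
  have h4 := (mult_of hu (fun v => hub v s le_rfl)).hasProd
  have h5 := h2.mul h4
  refine HasProd.tprod_eq (h5.congr_fun fun v => ?_)
  unfold hv
  have e : -(2 * s - 1) = 1 - 2 * s := by ring
  rw [e]
  have hne : 1 - (nv v : ℂ) ^ (1 - 2 * s) ≠ 0 := by
    intro h0
    have h6 := zfac_norm v s
    rw [← sub_eq_zero.1 h0, norm_one] at h6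
    have h2nv : (2 : ℝ) ≤ nv v := by exact_mod_cast two_le_nv v
    have hlt : (nv v : ℝ) ^ (1 - 2 * s.re) < 1 := Real.rpow_lt_one_of_one_lt_of_neg (by linarith) (by linarith)
    linarith
  rw [inv_pow]
  field_simp

end

end Run7.h876.MM
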