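import Mathlib

/-!
# Third order expansion of the integral powers of `1 + t`
-/

set_option autoImplicit false

namespace Run7.h876.MM

/-- `f = 1 + α t + β t² + γ t³ + O(t⁴)` for `|t| ≤ 1/2`. -/
def Exp3 (f : ℂ → ℂ) (α β : ℂ) : Prop :=
  ∃ (γ : ℂ) (C : ℝ), 0 ≤ C ∧ ∀ t : ℂ, ‖t‖ ≤ 1 / 2 → ‖f t - (1 + α * t + β * t ^ 2 + γ * t ^ 3)‖ ≤ C * ‖t‖ ^ 4

theorem Exp3.mul_one_add {f : ℂ → ℂ} {α β : ℂ} (h : Exp3 f α β) :
    Exp3 (fun t => f t * (1 + t)) (α + 1) (β + α) := by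
  obtain ⟨γ, C, hC, h⟩ := h
  refine ⟨γ + β, C * 2 + ‖γ‖, by positivity, fun t ht => ?_⟩
  have e : f t * (1 + t) - (1 + (α + 1) * t + (β + α) * t ^ 2 + (γ + β) * t ^ 3) =
      (f t - (1 + α * t + β * t ^ 2 + γ * t ^ 3)) * (1 + t) + γ * t ^ 4 := by ring
  rw [e]
  refine (norm_add_le _ _).trans ?_
  rw [norm_mul, norm_mul, norm_pow]
  have h1 : ‖1 + t‖ ≤ 2 := by
    refine (norm_add_le _ _).trans ?_
    rw [norm_one]; linarith
  have h2 := h t ht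
  have h3 : ‖f t - (1 + α * t + β * t ^ 2 + γ * t ^ 3)‖ * ‖1 + t‖ ≤ C * ‖t‖ ^ 4 * 2 :=
    mul_le_mul h2 h1 (norm_nonneg _) (by positivity)
  nlinarith [norm_nonneg γ]

theorem Exp3.div_one_add {f : ℂ → ℂ} {α β : ℂ} (h : Exp3 f α β) :
    Exp3 (fun t => f t / (1 + t)) (α - 1) (β - α + 1) := by
  obtain ⟨γ, C, hC, h⟩ := h
  refine ⟨γ - β + α - 1, C * 2 + 2 * ‖γ - β + α - 1‖, by positivity, fun t ht => ?_⟩
  have hne : 1 + t ≠ 0 := by
    intro h0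
    have h1 : t = -1 := by linear_combination h0
    rw [h1, norm_neg, norm_one] at ht
    norm_num at ht
  have h1 : 1 / 2 ≤ ‖1 + t‖ := by
    have h2 := norm_sub_norm_le (1 : ℂ) (-t)
    rw [norm_one, norm_neg, sub_neg_eq_add] at h2
    linarith
  have e : f t / (1 + t) - (1 + (α - 1) * t + (β - α + 1) * t ^ 2 + (γ - β + α - 1) * t ^ 3) =
      (f t - (1 + α * t + β * t ^ 2 + γ * t ^ 3)) / (1 + t) - (γ - β + α - 1) * t ^ 4 / (1 + t) := by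
    field_simp
    ring
  rw [e]
  refine (norm_sub_le _ _).trans ?_
  rw [norm_div, norm_div, norm_mul, norm_pow]
  have h3 : ‖f t - (1 + α * t + β * t ^ 2 + γ * t ^ 3)‖ / ‖1 + t‖ ≤ C * ‖t‖ ^ 4 * 2 := by
    rw [div_le_iff₀ (by linarith)]
    refine (h t ht).trans ?_
    have : (0 : ℝ) ≤ C * ‖t‖ ^ 4 := by positivity
    nlinarith
  have h4 : ‖γ - β + α - 1‖ * ‖t‖ ^ 4 / ‖1 + t‖ ≤ 2 * ‖γ - β + α - 1‖ * ‖t‖ ^ 4 := by
    rw [div_le_iff₀ (by linarith)]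
    have : (0 : ℝ) ≤ ‖γ - β + α - 1‖ * ‖t‖ ^ 4 := by positivity
    nlinarith
  linarith

/-- **The expansion of `(1 + t)^(-k)`.** -/
theorem exp3_zpow (k : ℤ) : Exp3 (fun t => (1 + t) ^ (-k)) (-k) (k * (k + 1) / 2) := by
  have key : ∀ f g : ℂ → ℂ, (∀ t : ℂ, ‖t‖ ≤ 1 / 2 → f t = g t) → ∀ α β : ℂ, Exp3 f α β → Exp3 g α β := by
    rintro f g hfg α β ⟨γ, C, hC, h⟩
    exact ⟨γ, C, hC, fun t ht => by rw [← hfg t ht]; exact h t ht⟩
  have hne : ∀ t : ℂ, ‖t‖ ≤ 1 / 2 → 1 + t ≠ 0 := by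
    intro t ht h0
    have h1 : t = -1 := by linear_combination h0
    rw [h1, norm_neg, norm_one] at ht
    norm_num at ht
  induction k using Int.induction_on with
  | zero => exact ⟨0, 0, le_rfl, fun t _ => by simp⟩
  | succ n ih =>
    have h1 := ih.div_one_add
    refine key (fun t => (1 + t) ^ (-(n : ℤ)) / (1 + t)) _ (fun t ht => ?_) _ _ ?_
    · rw [neg_add, zpow_add₀ (hne t ht), zpow_neg_one, div_eq_mul_inv]
    · convert h1 using 1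
      · push_cast; ring
      · push_cast; ring
  | pred n ih =>
    have h1 := ih.mul_one_add
    refine key (fun t => (1 + t) ^ (-(-(n : ℤ))) * (1 + t)) _ (fun t ht => ?_) _ _ ?_
    · rw [neg_sub, sub_eq_add_neg, add_comm (1 : ℤ), zpow_add₀ (hne t ht), zpow_one]
    · convert h1 using 1
      · push_cast; ring
      · push_cast; ring

/-- `(1 - z)^m = 1 - m z + O(z²)` for `|z| ≤ 1`. -/
theorem one_sub_pow (m : ℕ) : ∃ C : ℝ, 0 ≤ C ∧ ∀ z : ℂ, ‖z‖ ≤ 1 → ‖(1 - z) ^ m - (1 - m * z)‖ ≤ C * ‖z‖ ^ 2 := by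
  induction m with
  | zero => exact ⟨0, le_rfl, fun z _ => by simp⟩
  | succ m ih =>
    obtain ⟨C, hC, h⟩ := ih
    refine ⟨C * 2 + m, by positivity, fun z hz => ?_⟩
    have e : (1 - z) ^ (m + 1) - (1 - ((m + 1 : ℕ) : ℂ) * z) =
        ((1 - z) ^ m - (1 - m * z)) * (1 - z) + m * z ^ 2 := by
      push_cast; ring
    rw [e]
    refine (norm_add_le _ _).trans ?_
    rw [norm_mul, norm_mul, norm_pow, Complex.norm_natCast]
    have h1 : ‖1 - z‖ ≤ 2 := by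
      refine (norm_sub_le _ _).trans ?_
      rw [norm_one]; linarith
    have h3 := mul_le_mul (h z hz) h1 (norm_nonneg _) (by positivity)
    nlinarith [norm_nonneg z]

end Run7.h876.MM
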