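import Pool.Agent.Run7.h876.MM.Fin
import Pool.Agent.Run7.h876.MM.Tay
import Pool.Agent.Run7.h876.MM.Box

/-!
# The mean of a power of the Euler factor over all curves `y² = x³ + a x + b` over a finite field
-/

set_option autoImplicit false

namespace Run7.h876.MM

open Finset

/-- The Euler polynomial at `X`, for the character sum `T = -trace` and `q` elements. -/
noncomputable def EP (T : ℂ) (q : ℝ) (X : ℂ) : ℂ := 1 + T * X + q * X ^ 2

theorem EP_factor {T q : ℝ} (hq : 0 ≤ q) (hT : |T| ≤ 2 * Real.sqrt q) (X : ℂ) :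
    ∃ α : ℂ, ‖α‖ = Real.sqrt q ∧ EP T q X = (1 - α * X) * (1 - (starRingEnd ℂ) α * X) := by
  have h1 : T ^ 2 ≤ 4 * q := by
    have h2 : |T| ^ 2 ≤ (2 * Real.sqrt q) ^ 2 := by gcongr
    rw [sq_abs, mul_pow, Real.sq_sqrt hq] at h2
    linarith
  set b := Real.sqrt (q - T ^ 2 / 4) with hb
  have hb2 : b ^ 2 = q - T ^ 2 / 4 := by rw [hb, Real.sq_sqrt (by linarith)]
  refine ⟨⟨-T / 2, b⟩, ?_, ?_⟩
  · rw [Complex.norm_def, Complex.normSq_mk]
    congr 1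
    nlinarith
  · have e1 : (⟨-T / 2, b⟩ : ℂ) = -(T : ℂ) / 2 + b * Complex.I := by
      apply Complex.ext
      · simp
      · simp
    have e2 : (starRingEnd ℂ) (⟨-T / 2, b⟩ : ℂ) = -(T : ℂ) / 2 - b * Complex.I := by
      apply Complex.ext
      · simp
      · simp
    rw [e2, e1]
    have h3 : (b : ℂ) ^ 2 = q - T ^ 2 / 4 := by exact_mod_cast congrArg (Complex.ofReal) hb2
    have hI : Complex.I ^ 2 = -1 := Complex.I_sq
    unfold EP
    linear_combination (-(X ^ 2)) * h3 * 1 + (b : ℂ) ^ 2 * X ^ 2 * hI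

theorem EP_bounds {T q y₀ : ℝ} (hq : 0 ≤ q) (hT : |T| ≤ 2 * Real.sqrt q) (hy0 : y₀ < 1) (X : ℂ)
    (hX : Real.sqrt q * ‖X‖ ≤ y₀) : (1 - y₀) ^ 2 ≤ ‖EP T q X‖ ∧ ‖EP T q X‖ ≤ 4 := by
  obtain ⟨α, hα, h⟩ := EP_factor hq hT X
  have h0 : 0 ≤ Real.sqrt q * ‖X‖ := by positivity
  have a1 : ‖α * X‖ ≤ y₀ := by rw [norm_mul, hα]; exact hX
  have a2 : ‖(starRingEnd ℂ) α * X‖ ≤ y₀ := by rw [norm_mul, RCLike.norm_conj, hα]; exact hX
  have b1 : 1 - y₀ ≤ ‖1 - α * X‖ := by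
    have := norm_sub_norm_le (1 : ℂ) (α * X)
    rw [norm_one] at this; linarith
  have b2 : 1 - y₀ ≤ ‖1 - (starRingEnd ℂ) α * X‖ := by
    have := norm_sub_norm_le (1 : ℂ) ((starRingEnd ℂ) α * X)
    rw [norm_one] at this; linarith
  have c1 : ‖1 - α * X‖ ≤ 2 := by
    refine (norm_sub_le _ _).trans ?_
    rw [norm_one]; linarith
  have c2 : ‖1 - (starRingEnd ℂ) α * X‖ ≤ 2 := by
    refine (norm_sub_le _ _).trans ?_
    rw [norm_one]; linarith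
  rw [h, norm_mul]
  constructor
  · rw [sq]
    exact mul_le_mul b1 b2 (by linarith) (norm_nonneg _)
  · calc _ ≤ (2 : ℝ) * 2 := mul_le_mul c1 c2 (norm_nonneg _) (by norm_num)
      _ = 4 := by norm_num

/-- The bound for the powers of the Euler factor. -/
noncomputable def Bd (y₀ : ℝ) (n : ℤ) : ℝ := (4 + ((1 - y₀) ^ 2)⁻¹) ^ n.natAbs

theorem one_le_Bd {y₀ : ℝ} (n : ℤ) : 1 ≤ Bd y₀ n := by
  unfold Bd
  apply one_le_pow₀
  have : 0 ≤ ((1 - y₀) ^ 2)⁻¹ := by positivity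
  linarith

theorem EP_zpow_le {T q y₀ : ℝ} (hq : 0 ≤ q) (hT : |T| ≤ 2 * Real.sqrt q) (hy0 : y₀ < 1) (X : ℂ)
    (hX : Real.sqrt q * ‖X‖ ≤ y₀) (n : ℤ) : ‖EP T q X ^ (-n)‖ ≤ Bd y₀ n := by
  obtain ⟨h1, h2⟩ := EP_bounds hq hT hy0 X hX
  have h3 : 0 < (1 - y₀) ^ 2 := by
    have : 0 < 1 - y₀ := by linarith
    positivity
  have h4 : 0 < ‖EP T q X‖ := by linarith
  have h5 : 0 ≤ ((1 - y₀) ^ 2)⁻¹ := by positivity
  unfold Bd
  rw [norm_zpow]
  rcases Int.natAbs_eq n with h | h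
  · rw [h, Int.natAbs_natCast, zpow_neg, zpow_natCast, ← inv_pow]
    refine pow_le_pow_left₀ (by positivity) ?_ _
    have : ‖EP T q X‖⁻¹ ≤ ((1 - y₀) ^ 2)⁻¹ := inv_anti₀ h3 h1
    linarith
  · rw [h, neg_neg, zpow_natCast, Int.natAbs_neg, Int.natAbs_natCast]
    exact pow_le_pow_left₀ (by positivity) (by linarith) _

theorem EP_ne {T q y₀ : ℝ} (hq : 0 ≤ q) (hT : |T| ≤ 2 * Real.sqrt q) (hy0 : y₀ < 1) (X : ℂ)
    (hX : Real.sqrt q * ‖X‖ ≤ y₀) : EP T q X ≠ 0 := by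
  obtain ⟨h1, h2⟩ := EP_bounds hq hT hy0 X hX
  have h3 : 0 < (1 - y₀) ^ 2 := by
    have : 0 < 1 - y₀ := by linarith
    positivity
  exact norm_pos_iff.1 (by linarith)

/-- **The mean of a power of the Euler factor.** -/
theorem local_mean (n : ℤ) : ∃ C : ℝ, 0 ≤ C ∧ ∀ (k : Type) [Field k] [Fintype k] [DecidableEq k],
    ringChar k ≠ 2 → ∀ X : ℂ, Real.sqrt (Fintype.card k) * ‖X‖ ≤ 1 / 6 →
    ‖avg Finset.univ (fun c : k × k => if Gd c then (EP (T c) (Fintype.card k) X) ^ (-n) else 1) -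
      (1 + (n * (n - 1) / 2) * ((Fintype.card k : ℂ) * X ^ 2))‖ ≤
      C * (‖X‖ ^ 2 + (Real.sqrt (Fintype.card k) * ‖X‖) ^ 4) := by
  obtain ⟨γ, C, hC, hT⟩ := exp3_zpow n
  set β : ℂ := (n : ℂ) * (n + 1) / 2 with hβ
  refine ⟨9 * ‖β‖ + 2 * ‖(n : ℂ)‖ + (‖β‖ + 13 * ‖γ‖ + 81 * C), by positivity, fun k _ _ _ hk X hX => ?_⟩
  set q : ℝ := (Fintype.card k : ℝ) with hq
  have hq0 : 0 < q := by rw [hq]; exact_mod_cast Fintype.card_pos
  have hqc : (Fintype.card k : ℂ) = (q : ℂ) := by rw [hq]; push_cast; rfl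
  set y : ℝ := Real.sqrt q * ‖X‖ with hy
  have hy0 : 0 ≤ y := by positivity
  have hy2 : y ^ 2 = q * ‖X‖ ^ 2 := by rw [hy, mul_pow, Real.sq_sqrt hq0.le]
  set w : ℂ := (q : ℂ) * X ^ 2 with hw
  have hwn : ‖w‖ = y ^ 2 := by
    rw [hw, norm_mul, norm_pow, Complex.norm_real, Real.norm_eq_abs, abs_of_pos hq0, hy2]
  have hu : ∀ c : k × k, ‖(T c : ℂ) * X‖ ≤ 2 * y := by
    intro c
    rw [norm_mul]
    have h1 : ‖(T c : ℂ)‖ ≤ 2 * Real.sqrt q := by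
      have := T_le hk c
      rwa [← Real.norm_eq_abs, ← Complex.norm_real, Complex.ofReal_intCast] at this
    calc _ ≤ (2 * Real.sqrt q) * ‖X‖ := mul_le_mul_of_nonneg_right h1 (norm_nonneg _)
      _ = 2 * y := by rw [hy]; ring
  have ht : ∀ c : k × k, ‖(T c : ℂ) * X + w‖ ≤ 3 * y := by
    intro c
    refine (norm_add_le _ _).trans ?_
    rw [hwn]
    nlinarith [hu c]
  -- the remainder
  set R : k × k → ℂ := fun c => (1 + ((T c : ℂ) * X + w)) ^ (-n) -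
    (1 + -(n : ℂ) * ((T c : ℂ) * X + w) + β * ((T c : ℂ) * X + w) ^ 2 + γ * ((T c : ℂ) * X + w) ^ 3) with hR
  have hRb : ∀ c, ‖R c‖ ≤ 81 * C * y ^ 4 := by
    intro c
    have h1 := hT ((T c : ℂ) * X + w) (by have := ht c; linarith)
    refine h1.trans ?_
    calc C * ‖(T c : ℂ) * X + w‖ ^ 4 ≤ C * (3 * y) ^ 4 := by
          have := ht c
          gcongr
      _ = _ := by ring
  have hq2 : ((Finset.univ : Finset (k × k)).card : ℂ) = (q : ℂ) ^ 2 := by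
    rw [Finset.card_univ, Fintype.card_prod, ← hqc]
    push_cast; ring
  have hqne : (q : ℂ) ≠ 0 := by exact_mod_cast hq0.ne'
  set S : ℂ := ∑ c : k × k, (if Gd c then (T c : ℂ) ^ 2 else 0) with hS
  set G : ℂ := ∑ c : k × k, (if Gd c then (1 : ℂ) else 0) with hG
  have e1 : ∑ c : k × k, (if Gd c then (EP (T c) (Fintype.card k) X) ^ (-n) else 1) =
      (q : ℂ) ^ 2 + (-n * w + β * w ^ 2 + γ * w ^ 3) * G + (β * X ^ 2 + 3 * γ * w * X ^ 2) * S +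
        ∑ c : k × k, (if Gd c then R c else 0) := by
    have h1 : ∀ c : k × k, (if Gd c then (EP (T c) (Fintype.card k) X) ^ (-n) else 1) =
        1 + (-n * w + β * w ^ 2 + γ * w ^ 3) * (if Gd c then (1 : ℂ) else 0) +
        (β * X ^ 2 + 3 * γ * w * X ^ 2) * (if Gd c then (T c : ℂ) ^ 2 else 0) +
        (if Gd c then R c else 0) +
        (if Gd c then (fun z : ℂ => (-n * X + 2 * β * X * w + 3 * γ * X * w ^ 2) * z + γ * X ^ 3 * z ^ 3) (T c) else 0) := by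
      intro c
      by_cases h : Gd c
      · simp only [if_pos h, hR]
        have : EP (T c) (Fintype.card k) X = 1 + ((T c : ℂ) * X + w) := by
          unfold EP
          rw [hw]
          ring
        rw [this]
        ring
      · simp only [if_neg h]
        ring
    rw [Finset.sum_congr rfl fun c _ => h1 c]
    simp only [Finset.sum_add_distrib, ← Finset.mul_sum]
    rw [sum_odd hk (fun z : ℂ => (-n * X + 2 * β * X * w + 3 * γ * X * w ^ 2) * z + γ * X ^ 3 * z ^ 3)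
      (fun z => by ring), Finset.sum_const, nsmul_eq_mul, hq2, ← hS, ← hG]
    ring
  -- `S = q³ - q² - S'`, `G = q² - G'`
  set S' : ℝ := ∑ c : k × k, (if Gd c then (0 : ℝ) else (T c : ℝ) ^ 2) with hS'
  set G' : ℝ := (#{c : k × k | ¬ Gd c} : ℝ) with hG'
  have hG'b : G' ≤ 2 * q := by
    rw [hG', hq]
    exact_mod_cast card_bad hk
  have hG'0 : 0 ≤ G' := by positivity
  have hS'0 : 0 ≤ S' := Finset.sum_nonneg fun c _ => by split_ifs <;> positivity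
  have hS'b : S' ≤ 8 * q ^ 2 := by
    have h1 : S' ≤ ∑ c : k × k, (if ¬ Gd c then 4 * q else 0) := by
      refine Finset.sum_le_sum fun c _ => ?_
      by_cases h : Gd c
      · rw [if_pos h, if_neg (not_not.2 h)]
      · rw [if_neg h, if_pos h]
        have := T_le hk c
        have h2 : |(T c : ℝ)| ^ 2 ≤ (2 * Real.sqrt q) ^ 2 := by gcongr
        rw [sq_abs, mul_pow, Real.sq_sqrt hq0.le] at h2
        linarith
    rw [← Finset.sum_filter, Finset.sum_const, nsmul_eq_mul] at h1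
    refine h1.trans ?_
    have : G' * (4 * q) ≤ 2 * q * (4 * q) := by gcongr
    calc _ = G' * (4 * q) := rfl
      _ ≤ _ := by nlinarith
  have eS : S = (q : ℂ) ^ 3 - (q : ℂ) ^ 2 - (S' : ℂ) := by
    have h1 : S + (S' : ℂ) = ∑ c : k × k, (T c : ℂ) ^ 2 := by
      rw [hS, hS', Complex.ofReal_sum, ← Finset.sum_add_distrib]
      refine Finset.sum_congr rfl fun c _ => ?_
      split_ifs <;> simp
    have h2 : ∑ c : k × k, (T c : ℂ) ^ 2 = (q : ℂ) ^ 3 - (q : ℂ) ^ 2 := by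
      have := congrArg (Int.cast : ℤ → ℂ) (sum_T_sq hk)
      push_cast at this
      rw [this, hqc]
    linear_combination h1 + h2
  have eG : G = (q : ℂ) ^ 2 - (G' : ℂ) := by
    have h1 : G + (G' : ℂ) = (q : ℂ) ^ 2 := by
      have h2 : (G' : ℂ) = ∑ c : k × k, (if ¬ Gd c then (1 : ℂ) else 0) := by
        rw [← Finset.sum_filter, Finset.sum_const, nsmul_eq_mul, mul_one, hG']
        push_cast; rfl
      rw [h2, hG, ← Finset.sum_add_distrib, ← hq2, Finset.card_eq_sum_ones]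
      push_cast
      refine Finset.sum_congr rfl fun c _ => ?_
      by_cases h : Gd c
      · simp [h]
      · simp [h]
    linear_combination h1
  -- conclusion
  have e2 : avg Finset.univ (fun c : k × k => if Gd c then (EP (T c) (Fintype.card k) X) ^ (-n) else 1) -
      (1 + ((n : ℂ) * (n - 1) / 2) * ((Fintype.card k : ℂ) * X ^ 2)) =
      -(β * X ^ 2 * (1 + S' / q ^ 2)) + n * w * (G' / q ^ 2) +
      (β * w ^ 2 * (G / q ^ 2) + γ * w ^ 3 * (G / q ^ 2) + 3 * γ * w * X ^ 2 * (S / q ^ 2) +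
        (∑ c : k × k, (if Gd c then R c else 0)) / q ^ 2) := by
    unfold avg
    rw [e1, hq2, hqc]
    have e3 : (q : ℂ) ^ 2 + (-n * w + β * w ^ 2 + γ * w ^ 3) * G + (β * X ^ 2 + 3 * γ * w * X ^ 2) * S +
        ∑ c : k × k, (if Gd c then R c else 0) =
        (q : ℂ) ^ 2 + (-n * w) * ((q : ℂ) ^ 2 - G') + (β * w ^ 2 + γ * w ^ 3) * G +
        β * X ^ 2 * ((q : ℂ) ^ 3 - (q : ℂ) ^ 2 - S') + 3 * γ * w * X ^ 2 * S +
        ∑ c : k × k, (if Gd c then R c else 0) := by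
      rw [← eS, ← eG]; ring
    rw [e3]
    set RR := ∑ c : k × k, (if Gd c then R c else 0)
    rw [hw, hβ]
    field_simp
    ring
  rw [e2]
  have hX2 : 0 ≤ ‖X‖ ^ 2 := by positivity
  have hyy : y ^ 2 ≤ 1 := by nlinarith
  have nG : ‖G / (q : ℂ) ^ 2‖ ≤ 1 := by
    rw [norm_div, norm_pow, Complex.norm_real, Real.norm_eq_abs, abs_of_pos hq0, div_le_one (by positivity)]
    have h3 : G = (((q ^ 2 - G') : ℝ) : ℂ) := by rw [eG]; push_cast; ring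
    have h4 : 0 ≤ q ^ 2 - G' := by
      have h5 : G' ≤ q ^ 2 := by
        have h6 : #{c : k × k | ¬ Gd c} ≤ (Finset.univ : Finset (k × k)).card := Finset.card_filter_le _ _
        rw [Finset.card_univ, Fintype.card_prod] at h6
        rw [hG', hq, sq]
        exact_mod_cast h6
      linarith
    rw [h3, Complex.norm_real, Real.norm_eq_abs, abs_of_nonneg h4]
    linarith
  have nS : ‖S / (q : ℂ) ^ 2‖ ≤ 4 * q := by
    rw [norm_div, norm_pow, Complex.norm_real, Real.norm_eq_abs, abs_of_pos hq0, div_le_iff₀ (by positivity)]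
    have h3 : ‖S‖ ≤ ∑ _c : k × k, 4 * q := by
      rw [hS]
      refine (norm_sum_le _ _).trans (Finset.sum_le_sum fun c _ => ?_)
      split_ifs
      · have := T_le hk c
        have h2 : |(T c : ℝ)| ^ 2 ≤ (2 * Real.sqrt q) ^ 2 := by gcongr
        rw [sq_abs, mul_pow, Real.sq_sqrt hq0.le] at h2
        rw [norm_pow, ← Complex.ofReal_intCast, Complex.norm_real, Real.norm_eq_abs, sq_abs]
        linarith
      · rw [norm_zero]; positivity
    rw [Finset.sum_const, Finset.card_univ, Fintype.card_prod, nsmul_eq_mul] at h3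
    refine h3.trans (le_of_eq ?_)
    push_cast
    rw [← hq]; ring
  have nR : ‖(∑ c : k × k, (if Gd c then R c else 0)) / (q : ℂ) ^ 2‖ ≤ 81 * C * y ^ 4 := by
    rw [norm_div, norm_pow, Complex.norm_real, Real.norm_eq_abs, abs_of_pos hq0, div_le_iff₀ (by positivity)]
    have h3 : ‖∑ c : k × k, (if Gd c then R c else 0)‖ ≤ ∑ _c : k × k, 81 * C * y ^ 4 := by
      refine (norm_sum_le _ _).trans (Finset.sum_le_sum fun c _ => ?_)
      split_ifs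
      · exact hRb c
      · rw [norm_zero]; positivity
    rw [Finset.sum_const, Finset.card_univ, Fintype.card_prod, nsmul_eq_mul] at h3
    refine h3.trans (le_of_eq ?_)
    push_cast
    rw [← hq]; ring
  have n1 : ‖-(β * X ^ 2 * (1 + S' / q ^ 2))‖ ≤ 9 * ‖β‖ * ‖X‖ ^ 2 := by
    rw [norm_neg, norm_mul, norm_mul, norm_pow]
    have h3 : ‖(1 + S' / q ^ 2 : ℂ)‖ ≤ 9 := by
      have h4 : (1 + S' / q ^ 2 : ℂ) = ((1 + S' / q ^ 2 : ℝ) : ℂ) := by push_cast; ring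
      rw [h4, Complex.norm_real, Real.norm_eq_abs, abs_of_nonneg (by positivity)]
      have : S' / q ^ 2 ≤ 8 := by rw [div_le_iff₀ (by positivity)]; exact hS'b
      linarith
    have : (0 : ℝ) ≤ ‖β‖ * ‖X‖ ^ 2 := by positivity
    nlinarith
  have n2 : ‖(n : ℂ) * w * (G' / q ^ 2)‖ ≤ 2 * ‖(n : ℂ)‖ * ‖X‖ ^ 2 := by
    rw [norm_mul, norm_mul, hwn, hy2]
    have h3 : ‖(G' / q ^ 2 : ℂ)‖ ≤ 2 / q := by
      have h4 : (G' / q ^ 2 : ℂ) = ((G' / q ^ 2 : ℝ) : ℂ) := by push_cast; ring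
      rw [h4, Complex.norm_real, Real.norm_eq_abs, abs_of_nonneg (by positivity), div_le_div_iff₀ (by positivity) hq0]
      nlinarith
    calc ‖(n : ℂ)‖ * (q * ‖X‖ ^ 2) * ‖(G' / q ^ 2 : ℂ)‖ ≤ ‖(n : ℂ)‖ * (q * ‖X‖ ^ 2) * (2 / q) := by gcongr
      _ = _ := by field_simp
  have n3 : ‖β * w ^ 2 * (G / q ^ 2)‖ ≤ ‖β‖ * y ^ 4 := by
    rw [norm_mul, norm_mul, norm_pow, hwn]
    calc ‖β‖ * (y ^ 2) ^ 2 * ‖G / (q : ℂ) ^ 2‖ ≤ ‖β‖ * (y ^ 2) ^ 2 * 1 := by gcongr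
      _ = _ := by ring
  have n4 : ‖γ * w ^ 3 * (G / q ^ 2)‖ ≤ ‖γ‖ * y ^ 4 := by
    rw [norm_mul, norm_mul, norm_pow, hwn]
    calc ‖γ‖ * (y ^ 2) ^ 3 * ‖G / (q : ℂ) ^ 2‖ ≤ ‖γ‖ * (y ^ 2) ^ 3 * 1 := by gcongr
      _ = ‖γ‖ * (y ^ 4 * y ^ 2) := by ring
      _ ≤ ‖γ‖ * (y ^ 4 * 1) := by gcongr
      _ = _ := by ring
  have n5 : ‖3 * γ * w * X ^ 2 * (S / q ^ 2)‖ ≤ 12 * ‖γ‖ * y ^ 4 := by
    rw [norm_mul, norm_mul, norm_mul, norm_mul, hwn, norm_pow]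
    have h3 : ‖(3 : ℂ)‖ = 3 := by simp
    rw [h3]
    calc 3 * ‖γ‖ * y ^ 2 * ‖X‖ ^ 2 * ‖S / (q : ℂ) ^ 2‖ ≤ 3 * ‖γ‖ * y ^ 2 * ‖X‖ ^ 2 * (4 * q) := by gcongr
      _ = 12 * ‖γ‖ * y ^ 2 * (q * ‖X‖ ^ 2) := by ring
      _ = _ := by rw [← hy2]; ring
  have hfin : ‖-(β * X ^ 2 * (1 + S' / q ^ 2)) + n * w * (G' / q ^ 2) +
      (β * w ^ 2 * (G / q ^ 2) + γ * w ^ 3 * (G / q ^ 2) + 3 * γ * w * X ^ 2 * (S / q ^ 2) +
        (∑ c : k × k, (if Gd c then R c else 0)) / q ^ 2)‖ ≤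
      9 * ‖β‖ * ‖X‖ ^ 2 + 2 * ‖(n : ℂ)‖ * ‖X‖ ^ 2 + (‖β‖ * y ^ 4 + ‖γ‖ * y ^ 4 + 12 * ‖γ‖ * y ^ 4 + 81 * C * y ^ 4) := by
    refine (norm_add_le _ _).trans (add_le_add ((norm_add_le _ _).trans (add_le_add n1 n2)) ?_)
    exact (norm_add_le _ _).trans (add_le_add ((norm_add_le _ _).trans (add_le_add ((norm_add_le _ _).trans
      (add_le_add n3 n4)) n5)) nR)
  refine hfin.trans ?_
  have hy4 : 0 ≤ y ^ 4 := by positivity
  have k1 : 0 ≤ (9 * ‖β‖ + 2 * ‖(n : ℂ)‖) * y ^ 4 := by positivity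
  have k2 : 0 ≤ (‖β‖ + 13 * ‖γ‖ + 81 * C) * ‖X‖ ^ 2 := by positivity
  nlinarith

end Run7.h876.MM
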